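import Pool.Agent.Work.MP_46fa68_36.LargeP
import Pool.Agent.Work.MP_46fa68_18.PD23
import Pool.Agent.Work.MP_46fa68_18.PD24
import Pool.Agent.Work.MP_46fa68_18.PD25
import Pool.Agent.Work.MP_46fa68_18.PD26
import Pool.Agent.Work.MP_46fa68_18.PC23
import Pool.Agent.Work.MP_46fa68_18.PC24
import Pool.Agent.Work.MP_46fa68_18.PC25
import Pool.Agent.Work.MP_46fa68_18.PC26
import Pool.Agent.Work.MP_46fa68_67.CrossU

/-!
# MP_46fa68_co: `Holds (2 t + 1) t` for `t = 23, 24, 25, 26` (helper36)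

The triple of `ListsP`, helper18's kernel runs, helper67's cross function.
-/

set_option autoImplicit false

namespace Pool.EGP

open Pool.EG

theorem holds_23 (hK : ∀ n' t' : ℕ, 2 * t' + 3 ≤ n' → Holds n' t') : Holds (2 * 23 + 1) 23 :=
  holds_p (by norm_num) (by norm_num) Pool.NW.PR23.mainP (Pool.NW.RV.cross_w 23 (by norm_num))
    Pool.NW.PR23.crudeP hK

theorem holds_24 (hK : ∀ n' t' : ℕ, 2 * t' + 3 ≤ n' → Holds n' t') : Holds (2 * 24 + 1) 24 :=
  holds_p (by norm_num) (by norm_num) Pool.NW.PR24.mainP (Pool.NW.RV.cross_w 24 (by norm_num))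
    Pool.NW.PR24.crudeP hK

theorem holds_25 (hK : ∀ n' t' : ℕ, 2 * t' + 3 ≤ n' → Holds n' t') : Holds (2 * 25 + 1) 25 :=
  holds_p (by norm_num) (by norm_num) Pool.NW.PR25.mainP (Pool.NW.RV.cross_w 25 (by norm_num))
    Pool.NW.PR25.crudeP hK

theorem holds_26 (hK : ∀ n' t' : ℕ, 2 * t' + 3 ≤ n' → Holds n' t') : Holds (2 * 26 + 1) 26 :=
  holds_p (by norm_num) (by norm_num) Pool.NW.PR26.mainP (Pool.NW.RV.cross_w 26 (by norm_num))
    Pool.NW.PR26.crudeP hK

end Pool.EGP
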