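import Pool.Agent.Work.MP_46fa68_h4.Rho

/-!
# MP_46fa68_co, S4: reduction of the one-bead ratios to the two top rows, bounds of `theta`

`C` is the set of the beads of the rows `≥ 3` (`k` beads, `∑ C = ∑ range k + s`, all below `k + b`), the two top beads
are `k + 1 + L` (row one, length `L`) and `k + b` (row two, length `b ≤ L`).  `Th C k A p` is the product over `C` of
`(k + A + p - y) / (k + A - y)` divided by the same product over the vacuum `range k`.

* `Rr_row1`, `Rr_row2`: the exact factorisations of `Rr` for the two top beads;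
* `Th_le_row`: `Th ≤ (1 + p / (A + 1 - s)) / (1 + p / (A + 1))` (one third row), its step form `Th_step_row`;
* `Th_step_le`: Chebyshev step over the `b` columns; `Th_step_ge`: the step from below (one column).
-/

set_option autoImplicit false

open Finset Equiv

namespace Pool.JM

/-- the product over the beads of the lower rows, divided by its vacuum value -/
noncomputable def Th (C : Finset ℕ) (k A p : ℕ) : ℝ :=
  (∏ y ∈ C, ((((k + A : ℕ) : ℝ) + p - y) / (((k + A : ℕ) : ℝ) - y))) /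
    (∏ y ∈ range k, ((((k + A : ℕ) : ℝ) + p - y) / (((k + A : ℕ) : ℝ) - y)))

theorem fac_pos {C : Finset ℕ} {k A : ℕ} (hC : ∀ y ∈ C, y < k + A) (p : ℕ) :
    0 < ∏ y ∈ C, ((((k + A : ℕ) : ℝ) + p - y) / (((k + A : ℕ) : ℝ) - y)) := by
  refine prod_pos fun y hy => ?_
  have h1 : (y : ℝ) < ((k + A : ℕ) : ℝ) := by exact_mod_cast hC y hy
  have h2 : (0 : ℝ) ≤ p := Nat.cast_nonneg p
  exact div_pos (by linarith) (by linarith)

theorem vac_pos (k A p : ℕ) :
    0 < ∏ y ∈ range k, ((((k + A : ℕ) : ℝ) + p - y) / (((k + A : ℕ) : ℝ) - y)) :=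
  fac_pos (fun y hy => by have := mem_range.1 hy; omega) p

theorem Th_pos {C : Finset ℕ} {k A : ℕ} (hC : ∀ y ∈ C, y < k + A) (p : ℕ) : 0 < Th C k A p :=
  div_pos (fac_pos hC p) (vac_pos k A p)

theorem Th_zero {C : Finset ℕ} {k A : ℕ} (hC : ∀ y ∈ C, y < k + A) : Th C k A 0 = 1 := by
  have h : ∀ (S : Finset ℕ), (∀ y ∈ S, y < k + A) →
      ∏ y ∈ S, ((((k + A : ℕ) : ℝ) + (0 : ℕ) - y) / (((k + A : ℕ) : ℝ) - y)) = 1 := by
    intro S hS
    refine prod_eq_one fun y hy => ?_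
    have h1 : (y : ℝ) < ((k + A : ℕ) : ℝ) := by exact_mod_cast hS y hy
    rw [Nat.cast_zero, add_zero]
    exact div_self (by linarith)
  unfold Th
  rw [h C hC, h (range k) (fun y hy => by have := mem_range.1 hy; omega), div_one]

theorem Th_vac (k A p : ℕ) : Th (range k) k A p = 1 := div_self (vac_pos k A p).ne'

/-- the product over the lower rows -/
theorem prod_eq_Th (C : Finset ℕ) (k A p : ℕ) :
    ∏ y ∈ C, ((((k + A : ℕ) : ℝ) + p - y) / (((k + A : ℕ) : ℝ) - y)) =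
      Th C k A p * (((k + A + p).factorial : ℝ) * A.factorial /
        ((A + p).factorial * (k + A).factorial)) := by
  unfold Th
  rw [← prod_rest k A p, div_mul_cancel₀ _ (vac_pos k A p).ne']

/-- **(T1)** row one -/
theorem Rr_row1 {B : Finset ℕ} {k L b : ℕ} (hbL : b ≤ L) (h2 : k + b ∈ B) (p : ℕ) :
    Rr B (k + 1 + L) p = (1 + (p : ℝ) / ((L : ℝ) + 1 - b)) *
      (((L + 1).factorial : ℝ) / (L + 1 + p).factorial) *
      Th ((B.erase (k + 1 + L)).erase (k + b)) k (L + 1) p := by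
  have hne : k + b ≠ k + 1 + L := by omega
  have hm : k + b ∈ B.erase (k + 1 + L) := mem_erase.2 ⟨hne, h2⟩
  unfold Rr
  rw [← mul_prod_erase _ _ hm]
  have hx : k + 1 + L = k + (L + 1) := by omega
  have hL : (b : ℝ) ≤ L := by exact_mod_cast hbL
  rw [hx, prod_eq_Th]
  have e1 : ((((k + (L + 1) : ℕ) : ℝ) + p - ((k + b : ℕ) : ℝ)) / (((k + (L + 1) : ℕ) : ℝ) -
      ((k + b : ℕ) : ℝ))) = 1 + (p : ℝ) / ((L : ℝ) + 1 - b) := by
    have h3 : (L : ℝ) + 1 - b ≠ 0 := by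
      have : 0 < (L : ℝ) + 1 - b := by linarith
      exact this.ne'
    push_cast
    rw [show (k : ℝ) + (L + 1) + p - (k + b) = (L : ℝ) + 1 - b + p by ring,
      show (k : ℝ) + (L + 1) - (k + b) = (L : ℝ) + 1 - b by ring, add_div, div_self h3]
  rw [e1]
  have f1 : ((k + (L + 1)).factorial : ℝ) ≠ 0 := by exact_mod_cast Nat.factorial_ne_zero _
  have f2 : ((k + (L + 1) + p).factorial : ℝ) ≠ 0 := by exact_mod_cast Nat.factorial_ne_zero _
  have f3 : ((L + 1 + p).factorial : ℝ) ≠ 0 := by exact_mod_cast Nat.factorial_ne_zero _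
  field_simp

/-- **(T2)** row two -/
theorem Rr_row2 {B : Finset ℕ} {k L b : ℕ} (hbL : b ≤ L) (h1 : k + 1 + L ∈ B) (p : ℕ) :
    Rr B (k + b) p = (1 - (p : ℝ) / ((L : ℝ) + 1 - b)) *
      ((b.factorial : ℝ) / (b + p).factorial) *
      Th ((B.erase (k + b)).erase (k + 1 + L)) k b p := by
  have hne : k + 1 + L ≠ k + b := by omega
  have hm : k + 1 + L ∈ B.erase (k + b) := mem_erase.2 ⟨hne, h1⟩
  unfold Rr
  rw [← mul_prod_erase _ _ hm]
  have hL : (b : ℝ) ≤ L := by exact_mod_cast hbL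
  rw [prod_eq_Th]
  have e1 : ((((k + b : ℕ) : ℝ) + p - ((k + 1 + L : ℕ) : ℝ)) / (((k + b : ℕ) : ℝ) -
      ((k + 1 + L : ℕ) : ℝ))) = 1 - (p : ℝ) / ((L : ℝ) + 1 - b) := by
    have h3 : (L : ℝ) + 1 - b ≠ 0 := by
      have : 0 < (L : ℝ) + 1 - b := by linarith
      exact this.ne'
    push_cast
    rw [show (k : ℝ) + b + p - (k + 1 + L) = -((L : ℝ) + 1 - b) + p by ring,
      show (k : ℝ) + b - (k + 1 + L) = -((L : ℝ) + 1 - b) by ring, add_div,
      div_self (neg_ne_zero.2 h3), div_neg]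
    ring
  rw [e1]
  have f1 : ((k + b).factorial : ℝ) ≠ 0 := by exact_mod_cast Nat.factorial_ne_zero _
  have f2 : ((k + b + p).factorial : ℝ) ≠ 0 := by exact_mod_cast Nat.factorial_ne_zero _
  have f3 : ((b + p).factorial : ℝ) ≠ 0 := by exact_mod_cast Nat.factorial_ne_zero _
  field_simp

/-- **(T3)** one third row is extremal -/
theorem Th_le_row {C : Finset ℕ} {k A s : ℕ} (hc : C.card = k)
    (hs : ∑ y ∈ C, y = ∑ y ∈ range k, y + s) (hb : ∀ y ∈ C, y < k + A) (hsA : s ≤ A) (p : ℕ) :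
    Th C k A p ≤ (1 + (p : ℝ) / ((A : ℝ) + 1 - s)) / (1 + (p : ℝ) / ((A : ℝ) + 1)) := by
  have h1 := prod_row p k C A s hc hs hb hsA
  have h2 := vac_pos k A p
  unfold Th
  rw [div_le_iff₀ h2]
  refine h1.trans (le_of_eq ?_)
  rw [mul_comm]
  congr 1
  unfold gx
  have hsR : (s : ℝ) ≤ A := by exact_mod_cast hsA
  have h3 : (A : ℝ) + 1 - s ≠ 0 := by
    have : 0 < (A : ℝ) + 1 - s := by linarith
    exact this.ne'
  have h4 : (A : ℝ) + 1 ≠ 0 := by positivity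
  have h5 : (A : ℝ) + 1 + p ≠ 0 := by positivity
  field_simp

/-- one step of the product -/
theorem fac_step {C : Finset ℕ} {k A : ℕ} (hC : ∀ y ∈ C, y < k + A) (p : ℕ) :
    ∏ y ∈ C, ((((k + A : ℕ) : ℝ) + (p + 1 : ℕ) - y) / (((k + A : ℕ) : ℝ) - y)) =
      (∏ y ∈ C, ((((k + A : ℕ) : ℝ) + p - y) / (((k + A : ℕ) : ℝ) - y))) *
        ∏ y ∈ C, ((((k + A : ℕ) : ℝ) + p + 1 - y) / (((k + A : ℕ) : ℝ) + p - y)) := by
  rw [← prod_mul_distrib]
  refine prod_congr rfl fun y hy => ?_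
  have h1 : (y : ℝ) < ((k + A : ℕ) : ℝ) := by exact_mod_cast hC y hy
  have h2 : (0 : ℝ) ≤ p := Nat.cast_nonneg p
  have n1 : ((k + A : ℕ) : ℝ) - y ≠ 0 := by
    have : 0 < ((k + A : ℕ) : ℝ) - y := by linarith
    exact this.ne'
  have n2 : ((k + A : ℕ) : ℝ) + p - y ≠ 0 := by
    have : 0 < ((k + A : ℕ) : ℝ) + p - y := by linarith
    exact this.ne'
  rw [Nat.cast_add p 1, Nat.cast_one]
  field_simp
  ring

/-- one step of `Th` as a product over the holes: `b ≤ A`, all beads of `C` below `k + b` -/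
theorem Th_step {C : Finset ℕ} {k b s : ℕ} (hc : C.card = k)
    (hs : ∑ y ∈ C, y = ∑ y ∈ range k, y + s) (hb : ∀ y ∈ C, y < k + b) :
    ∃ D : Finset ℕ, D.card = b ∧ (∀ d ∈ D, 1 ≤ d) ∧
      (∑ d ∈ D, (d : ℝ)) = (b : ℝ) * (b + 1) / 2 + s ∧
      ∀ A p : ℕ, b ≤ A → Th C k A (p + 1) = Th C k A p *
        ((∏ d ∈ D, (((d : ℝ) + (A - b + p : ℕ)) / (d + (A - b + p : ℕ) + 1))) *
          (((A : ℝ) + p + 1) / ((A : ℝ) - b + p + 1))) := by
  obtain ⟨D, hDc, hD1, hDs, hDp⟩ := prod_holes hc hs hb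
  refine ⟨D, hDc, hD1, hDs, fun A p hbA => ?_⟩
  have hbA' : ∀ y ∈ C, y < k + A := fun y hy => by have := hb y hy; omega
  have hr : ∀ y ∈ range k, y < k + A := fun y hy => by have := mem_range.1 hy; omega
  have h1 := hDp (A - b + p)
  have e0 : ((k + b : ℕ) : ℝ) + ((A - b + p : ℕ) : ℝ) = ((k + A : ℕ) : ℝ) + p := by
    exact_mod_cast (by omega : (k + b) + (A - b + p) = (k + A) + p)
  rw [e0] at h1
  have e2 : (((A - b + p : ℕ) : ℝ)) + 1 = (A : ℝ) - b + p + 1 := by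
    push_cast [Nat.cast_sub hbA]
    ring
  rw [e2] at h1
  have h2 := prod_range_ratio (((A + p : ℕ) : ℝ)) (Nat.cast_nonneg _) k
  have e3 : ∏ y ∈ range k, (((k : ℝ) + ((A + p : ℕ) : ℝ) + 1 - y) / (k + ((A + p : ℕ) : ℝ) - y)) =
      ∏ y ∈ range k, ((((k + A : ℕ) : ℝ) + p + 1 - y) / (((k + A : ℕ) : ℝ) + p - y)) := by
    refine prod_congr rfl fun y _ => ?_
    push_cast
    congr 1 <;> ring
  rw [e3] at h2
  unfold Th
  rw [fac_step hbA' p, fac_step hr p, h2]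
  have p1 := (vac_pos k A p).ne'
  have hx : (0 : ℝ) < ((k + A : ℕ) : ℝ) + p + 1 := by positivity
  have hA0 : (0 : ℝ) < ((A + p : ℕ) : ℝ) + 1 := by positivity
  have hbR : (b : ℝ) ≤ A := by exact_mod_cast hbA
  have hp0 : (0 : ℝ) ≤ p := Nat.cast_nonneg p
  have hq0 : (0 : ℝ) < (A : ℝ) - b + p + 1 := by linarith
  rw [div_eq_iff hx.ne'] at h1
  rw [h1]
  have e4 : (k : ℝ) + ((A + p : ℕ) : ℝ) + 1 = ((k + A : ℕ) : ℝ) + p + 1 := by push_cast; ring
  have e5 : ((A + p : ℕ) : ℝ) + 1 = (A : ℝ) + p + 1 := by push_cast; ring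
  rw [e4, e5]
  have hA1 : (A : ℝ) + p + 1 ≠ 0 := by positivity
  field_simp

/-- **(T4) the Chebyshev step**: the `s` boxes spread over `b` columns -/
theorem Th_step_le {C : Finset ℕ} {k b s A : ℕ} (hc : C.card = k)
    (hs : ∑ y ∈ C, y = ∑ y ∈ range k, y + s) (hb : ∀ y ∈ C, y < k + b) (h1 : 1 ≤ b) (hbA : b ≤ A)
    (p : ℕ) :
    Th C k A (p + 1) ≤ Th C k A p * ((1 + ((s : ℝ) / b) / ((A : ℝ) - b + p + 1)) /
      (1 + ((s : ℝ) / b) / ((A : ℝ) + p + 1))) := by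
  obtain ⟨D, hDc, hD1, hDs, hDp⟩ := Th_step hc hs hb
  have hbA' : ∀ y ∈ C, y < k + A := fun y hy => by have := hb y hy; omega
  rw [hDp A p hbA]
  refine mul_le_mul_of_nonneg_left ?_ (Th_pos hbA' p).le
  obtain ⟨b', rfl⟩ : ∃ b', b = b' + 1 := ⟨b - 1, by omega⟩
  have hb' : (0 : ℝ) ≤ b' := Nat.cast_nonneg b'
  have hs0 : (0 : ℝ) ≤ s := Nat.cast_nonneg s
  have hp0 : (0 : ℝ) ≤ p := Nat.cast_nonneg p
  have hbR : ((b' + 1 : ℕ) : ℝ) ≤ A := by exact_mod_cast hbA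
  push_cast at hbR
  have h2 := hole_le (((A - (b' + 1) + p : ℕ)) : ℝ) (Nat.cast_nonneg _) b' D hDc hD1
    ((s : ℝ) / (b' + 1)) (by
      rw [hDs]
      push_cast
      field_simp
      ring)
  have e2 : (((A - (b' + 1) + p : ℕ) : ℝ)) = (A : ℝ) - b' - 1 + p := by
    push_cast [Nat.cast_sub hbA]
    ring
  have hq : 0 < (A : ℝ) - b' - 1 + p + 1 := by linarith
  have hA1 : 0 < (A : ℝ) + p + 1 := by linarith
  obtain ⟨σ, hσ⟩ : ∃ σ : ℝ, σ = (s : ℝ) / (b' + 1) := ⟨_, rfl⟩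
  have hσ0 : 0 ≤ σ := by rw [hσ]; positivity
  rw [e2] at h2 ⊢
  push_cast
  rw [← hσ] at h2 ⊢
  refine (mul_le_mul_of_nonneg_right h2 (by
    have : 0 < (A : ℝ) - (b' + 1) + p + 1 := by linarith
    positivity)).trans (le_of_eq ?_)
  have n1 : (A : ℝ) - (b' + 1) + p + 1 ≠ 0 := by
    have : 0 < (A : ℝ) - (b' + 1) + p + 1 := by linarith
    exact this.ne'
  have n2 : σ + ((A : ℝ) - b' - 1 + p) + 1 + (b' + 1) ≠ 0 := by
    have : 0 < σ + ((A : ℝ) - b' - 1 + p) + 1 + (b' + 1) := by linarith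
    exact this.ne'
  have n3 : (A : ℝ) + p + 1 ≠ 0 := hA1.ne'
  have n4 : 1 + σ / ((A : ℝ) + p + 1) ≠ 0 := by
    have : 0 < 1 + σ / ((A : ℝ) + p + 1) := by positivity
    exact this.ne'
  have n5 : (A : ℝ) + p + 1 + σ ≠ 0 := by
    have : 0 < (A : ℝ) + p + 1 + σ := by linarith
    exact this.ne'
  rw [show 1 + σ / ((A : ℝ) - (b' + 1) + p + 1) = ((A : ℝ) - (b' + 1) + p + 1 + σ) /
      ((A : ℝ) - (b' + 1) + p + 1) by field_simp,
    show 1 + σ / ((A : ℝ) + p + 1) = ((A : ℝ) + p + 1 + σ) / ((A : ℝ) + p + 1) by field_simp]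
  rw [div_div_div_eq, div_mul_div_comm, div_eq_div_iff (mul_ne_zero n2 n1) (mul_ne_zero n1 n5)]
  ring

/-- **The product over the holes**, sharp lower bound: everything in the first column. -/
theorem hole_ge_col (q : ℝ) (hq : 0 ≤ q) : ∀ (a : ℕ) (D : Finset ℕ), D.card = a + 1 →
    (∀ d ∈ D, 1 ≤ d) → ∀ s : ℝ, (∑ d ∈ D, (d : ℝ)) = ((a : ℝ) + 1) * (a + 2) / 2 + s →
    (q + 1) / (q + 1 + a) * (((a : ℝ) + 1 + s + q) / (a + 1 + s + q + 1)) ≤
      ∏ d ∈ D, (((d : ℝ) + q) / (d + q + 1))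
  | 0, D, hc, h1, s, hs => by
    obtain ⟨d, rfl⟩ := card_eq_one.1 hc
    rw [prod_singleton]
    rw [sum_singleton] at hs
    have : s = d - 1 := by push_cast at hs; linarith
    rw [this]
    refine le_of_eq ?_
    have h2 : q + 1 ≠ 0 := by positivity
    rw [Nat.cast_zero, add_zero, div_self h2, one_mul]
    congr 1
    · ring
    · ring
  | a + 1, D, hc, h1, s, hs => by
    have hne : D.Nonempty := by rw [← card_pos, hc]; omega
    set M := D.max' hne with hMd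
    have h0 : M ∈ D := D.max'_mem hne
    have hc1 : (D.erase M).card = a + 1 := by rw [card_erase_of_mem h0, hc]; omega
    have h1' : ∀ d ∈ D.erase M, 1 ≤ d := fun d hd => h1 d (mem_of_mem_erase hd)
    have hS : ∑ d ∈ D, (d : ℝ) = M + ∑ d ∈ D.erase M, (d : ℝ) :=
      (add_sum_erase D (fun z => (z : ℝ)) h0).symm
    have hM : a + 2 ≤ M := by
      have h3 : a + 1 + 1 ≤ M := card_le_max hc h1 fun d hd => D.le_max' d hd
      omega
    have hM' : (a : ℝ) + 2 ≤ M := by exact_mod_cast hM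
    have ha : (0 : ℝ) ≤ a := Nat.cast_nonneg a
    obtain ⟨v, hv⟩ : ∃ v : ℝ, (M : ℝ) = a + 2 + v := ⟨(M : ℝ) - (a + 2), by ring⟩
    have hv0 : 0 ≤ v := by linarith
    obtain ⟨u, hu⟩ : ∃ u : ℝ, s = u + v := ⟨s - v, by ring⟩
    push_cast at hs
    have hSu : ∑ d ∈ D.erase M, (d : ℝ) = ((a : ℝ) + 1) * (a + 2) / 2 + u := by
      have : ∑ d ∈ D.erase M, (d : ℝ) = (a + 1 + 1) * (a + 1 + 2) / 2 + s - M := by linarith
      rw [this, hu, hv]
      ring
    have t1 : (((a + 1) * (a + 1 + 1) : ℕ) : ℝ) ≤ ((2 * ∑ d ∈ D.erase M, d : ℕ) : ℝ) := by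
      exact_mod_cast sum_ge_tri (a + 1) (D.erase M) hc1 h1'
    push_cast at t1
    have hu0 : 0 ≤ u := by nlinarith
    have ih := hole_ge_col q hq a (D.erase M) hc1 h1' u hSu
    rw [← mul_prod_erase D _ h0]
    refine le_trans ?_ (mul_le_mul_of_nonneg_left ih (by positivity))
    rw [hv, hu]
    push_cast
    have d1 : 0 < q + 1 + (a + 1) := by positivity
    have d2 : 0 < (a : ℝ) + 1 + 1 + (u + v) + q + 1 := by positivity
    have d3 : 0 < (a : ℝ) + 2 + v + q + 1 := by positivity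
    have d4 : 0 < q + 1 + (a : ℝ) := by positivity
    have d5 : 0 < (a : ℝ) + 1 + u + q + 1 := by positivity
    have key : (a + 1 + q) * (a + 1 + 1 + (u + v) + q) * ((a + 2 + v + q + 1) * (a + 1 + u + q + 1)) ≤
        ((a : ℝ) + 2 + v + q) * (a + 1 + u + q) * ((a + 1 + q + 1) * (a + 1 + 1 + (u + v) + q + 1)) := by
      obtain ⟨X, hX⟩ : ∃ X : ℝ, X = (a : ℝ) + 1 + q := ⟨_, rfl⟩
      have hX0 : 0 ≤ X := by rw [hX]; positivity
      rw [show (a : ℝ) + 1 + q = X from hX.symm,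
        show (a : ℝ) + 1 + 1 + (u + v) + q = X + 1 + u + v by rw [hX]; ring,
        show (a : ℝ) + 2 + v + q + 1 = X + v + 2 by rw [hX]; ring,
        show (a : ℝ) + 1 + u + q + 1 = X + u + 1 by rw [hX]; ring,
        show (a : ℝ) + 2 + v + q = X + 1 + v by rw [hX]; ring,
        show (a : ℝ) + 1 + u + q = X + u by rw [hX]; ring]
      have : 0 ≤ u * (1 + v) * (2 * X + u + v + 2) := by positivity
      nlinarith
    calc (q + 1) / (q + 1 + (a + 1)) * (((a : ℝ) + 1 + 1 + (u + v) + q) / (a + 1 + 1 + (u + v) + q + 1))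
        = ((q + 1) / (q + 1 + a)) * (((a + 1 + q) * (a + 1 + 1 + (u + v) + q)) /
          ((a + 1 + q + 1) * (a + 1 + 1 + (u + v) + q + 1))) := by
          have n6 : (a : ℝ) + 1 + q + 1 ≠ 0 := by positivity
          field_simp
          ring
      _ ≤ ((q + 1) / (q + 1 + a)) * ((((a : ℝ) + 2 + v + q) * (a + 1 + u + q)) /
          ((a + 2 + v + q + 1) * (a + 1 + u + q + 1))) := by
          refine mul_le_mul_of_nonneg_left ?_ (by positivity)
          rw [div_le_div_iff₀ (by positivity) (by positivity)]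
          exact key
      _ = _ := by
          rw [← div_mul_div_comm]
          ring

/-- **(T4) the step from below**: everything in one column -/
theorem Th_step_ge {C : Finset ℕ} {k b s A : ℕ} (hc : C.card = k)
    (hs : ∑ y ∈ C, y = ∑ y ∈ range k, y + s) (hb : ∀ y ∈ C, y < k + b) (h1 : 1 ≤ b) (hbA : b ≤ A)
    (p : ℕ) :
    Th C k A p * (1 + (s : ℝ) / (((A : ℝ) + p) * (A + p + s + 1))) ≤ Th C k A (p + 1) := by
  obtain ⟨D, hDc, hD1, hDs, hDp⟩ := Th_step hc hs hb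
  have hbA' : ∀ y ∈ C, y < k + A := fun y hy => by have := hb y hy; omega
  rw [hDp A p hbA]
  refine mul_le_mul_of_nonneg_left ?_ (Th_pos hbA' p).le
  obtain ⟨b', rfl⟩ : ∃ b', b = b' + 1 := ⟨b - 1, by omega⟩
  have hb' : (0 : ℝ) ≤ b' := Nat.cast_nonneg b'
  have hs0 : (0 : ℝ) ≤ s := Nat.cast_nonneg s
  have hp0 : (0 : ℝ) ≤ p := Nat.cast_nonneg p
  have hbR : ((b' + 1 : ℕ) : ℝ) ≤ A := by exact_mod_cast hbA
  push_cast at hbR
  have h2 := hole_ge_col (((A - (b' + 1) + p : ℕ)) : ℝ) (Nat.cast_nonneg _) b' D hDc hD1 (s : ℝ) (by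
      rw [hDs]
      push_cast
      ring)
  have e2 : (((A - (b' + 1) + p : ℕ) : ℝ)) = (A : ℝ) - b' - 1 + p := by
    push_cast [Nat.cast_sub hbA]
    ring
  have hq : 0 < (A : ℝ) - b' - 1 + p + 1 := by linarith
  have hA1 : 0 < (A : ℝ) + p := by linarith
  rw [e2] at h2 ⊢
  push_cast
  refine le_trans (le_of_eq ?_) (mul_le_mul_of_nonneg_right h2 (by
    have : 0 < (A : ℝ) - (b' + 1) + p + 1 := by linarith
    positivity))
  have n1 : (A : ℝ) - (b' + 1) + p + 1 ≠ 0 := by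
    have : 0 < (A : ℝ) - (b' + 1) + p + 1 := by linarith
    exact this.ne'
  have n2 : (A : ℝ) - b' - 1 + p + 1 + b' ≠ 0 := by
    have : 0 < (A : ℝ) - b' - 1 + p + 1 + b' := by linarith
    exact this.ne'
  have n3 : (b' : ℝ) + 1 + s + ((A : ℝ) - b' - 1 + p) + 1 ≠ 0 := by
    have : 0 < (b' : ℝ) + 1 + s + ((A : ℝ) - b' - 1 + p) + 1 := by linarith
    exact this.ne'
  have n4 : (A : ℝ) + p ≠ 0 := hA1.ne'
  have n5 : (A : ℝ) + p + s + 1 ≠ 0 := by
    have : 0 < (A : ℝ) + p + s + 1 := by linarith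
    exact this.ne'
  rw [show 1 + (s : ℝ) / (((A : ℝ) + p) * (A + p + s + 1)) =
    (((A : ℝ) + p) * (A + p + s + 1) + s) / (((A : ℝ) + p) * (A + p + s + 1)) by field_simp]
  rw [div_mul_div_comm, div_mul_div_comm,
    div_eq_div_iff (mul_ne_zero n4 n5) (mul_ne_zero (mul_ne_zero n2 n3) n1)]
  ring

/-- `Th` does not decrease -/
theorem Th_step_mono {C : Finset ℕ} {k b s A : ℕ} (hc : C.card = k)
    (hs : ∑ y ∈ C, y = ∑ y ∈ range k, y + s) (hb : ∀ y ∈ C, y < k + b) (h1 : 1 ≤ b) (hbA : b ≤ A)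
    (p : ℕ) : Th C k A p ≤ Th C k A (p + 1) := by
  have hbA' : ∀ y ∈ C, y < k + A := fun y hy => by have := hb y hy; omega
  refine le_trans ?_ (Th_step_ge hc hs hb h1 hbA p)
  refine le_mul_of_one_le_right (Th_pos hbA' p).le ?_
  have : 0 ≤ (s : ℝ) / (((A : ℝ) + p) * (A + p + s + 1)) := by positivity
  linarith

theorem Th_one_le {C : Finset ℕ} {k b s A : ℕ} (hc : C.card = k)
    (hs : ∑ y ∈ C, y = ∑ y ∈ range k, y + s) (hb : ∀ y ∈ C, y < k + b) (h1 : 1 ≤ b) (hbA : b ≤ A) :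
    ∀ p : ℕ, 1 ≤ Th C k A p
  | 0 => (Th_zero (fun y hy => by have := hb y hy; omega)).ge
  | p + 1 => (Th_one_le hc hs hb h1 hbA p).trans (Th_step_mono hc hs hb h1 hbA p)

/-- **(T3), step form** -/
theorem Th_step_row {C : Finset ℕ} {k A s : ℕ} (hc : C.card = k)
    (hs : ∑ y ∈ C, y = ∑ y ∈ range k, y + s) (hb : ∀ y ∈ C, y < k + A) (p : ℕ) (hsA : s ≤ A + p) :
    Th C k A (p + 1) ≤ Th C k A p *
      ((1 + 1 / ((A : ℝ) + p + 1 - s)) / (1 + 1 / ((A : ℝ) + p + 1))) := by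
  have h1 := Th_le_row (A := A + p) hc hs (fun y hy => by have := hb y hy; omega) hsA 1
  have hr : ∀ y ∈ range k, y < k + A := fun y hy => by have := mem_range.1 hy; omega
  have e1 : ∀ S : Finset ℕ, ∏ y ∈ S, ((((k + (A + p) : ℕ) : ℝ) + (1 : ℕ) - y) /
      (((k + (A + p) : ℕ) : ℝ) - y)) =
      ∏ y ∈ S, ((((k + A : ℕ) : ℝ) + p + 1 - y) / (((k + A : ℕ) : ℝ) + p - y)) := by
    intro S
    refine prod_congr rfl fun y _ => ?_
    push_cast
    congr 1 <;> ring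
  have e2 : Th C k A (p + 1) = Th C k A p * Th C k (A + p) 1 := by
    unfold Th
    rw [fac_step hb p, fac_step hr p, e1 C, e1 (range k), mul_div_mul_comm]
  rw [e2]
  refine mul_le_mul_of_nonneg_left (h1.trans (le_of_eq ?_)) (Th_pos hb p).le
  push_cast
  rw [show (A : ℝ) + p + 1 - s = (A : ℝ) + p + 1 - s from rfl]

/-! ## the two top rows of a set of beads -/

/-- `B` has `k + 2` beads, rows one and two have lengths `L`, `b`, the other rows `s` boxes altogether -/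
structure Two (k L b s : ℕ) (B : Finset ℕ) : Prop where
  hbL : b ≤ L
  h1 : k + 1 + L ∈ B
  h2 : k + b ∈ B
  hc : ((B.erase (k + 1 + L)).erase (k + b)).card = k
  hs : ∑ y ∈ (B.erase (k + 1 + L)).erase (k + b), y = ∑ y ∈ range k, y + s
  hlt : ∀ y ∈ (B.erase (k + 1 + L)).erase (k + b), y < k + b

theorem exists_two {k N : ℕ} {B : Finset ℕ} (hB : B ∈ Lv (k + 2) N) :
    ∃ L b s, N = L + b + s ∧ Two k L b s B := by
  obtain ⟨hc, -, -, -⟩ := Lv_spec hB
  have hne : B.Nonempty := by rw [← card_pos, hc]; omega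
  obtain ⟨L, R, hx, hN, hc1, hs1, hb1⟩ := top_spec (k := k + 1) hB (B.max'_mem hne)
    (fun y hy => B.le_max' y hy)
  set x := B.max' hne with hxd
  have hne2 : (B.erase x).Nonempty := by rw [← card_pos, hc1]; omega
  set z := (B.erase x).max' hne2 with hzd
  have hz : z ∈ B.erase x := (B.erase x).max'_mem hne2
  have hzlt := hb1 z hz
  have hc2 : ((B.erase x).erase z).card = k := by rw [card_erase_of_mem hz, hc1]; omega
  have hk : k ≤ z := by
    have h1 : B.erase x ⊆ range (z + 1) := fun y hy => mem_range.2 (by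
      have := (B.erase x).le_max' y hy
      omega)
    have := card_le_card h1
    rw [card_range, hc1] at this
    omega
  have e1 := add_sum_erase (B.erase x) (fun y => y) hz
  have hmin := sum_range_le hc2
  rw [sum_range_succ] at hs1
  have hzk : z = k + (z - k) := by omega
  have hxk : x = k + 1 + L := hx
  have hE : (B.erase (k + 1 + L)).erase (k + (z - k)) = (B.erase x).erase z := by
    rw [← hzk, ← hxk]
  refine ⟨L, z - k, R - (z - k), by omega, by omega, ?_, ?_, ?_, ?_, ?_⟩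
  · rw [← hxk]; exact B.max'_mem hne
  · rw [← hzk]; exact mem_of_mem_erase hz
  · rw [hE]; exact hc2
  · rw [hE]; omega
  · rw [hE]
    intro y hy
    have h1 := (B.erase x).le_max' y (mem_of_mem_erase hy)
    have h2 := ne_of_mem_erase hy
    omega

theorem Two.top {k L b s : ℕ} {B : Finset ℕ} (h : Two k L b s B) : ∀ y ∈ B, y ≤ k + 1 + L := by
  intro y hy
  by_cases h1 : y = k + 1 + L
  · exact h1.le
  by_cases h2 : y = k + b
  · have := h.hbL
    omega
  have h3 := h.hlt y (mem_erase.2 ⟨h2, mem_erase.2 ⟨h1, hy⟩⟩)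
  have := h.hbL
  omega

/-- no second row: the other beads are the vacuum -/
theorem Two.zero {k L s : ℕ} {B : Finset ℕ} (h : Two k L 0 s B) :
    s = 0 ∧ (B.erase (k + 1 + L)).erase (k + 0) = range k := by
  have h3 := h.hs
  have h4 : (B.erase (k + 1 + L)).erase (k + 0) ⊆ range k := fun y hy => mem_range.2 (h.hlt y hy)
  have h5 : (B.erase (k + 1 + L)).erase (k + 0) = range k :=
    eq_of_subset_of_card_le h4 (by rw [card_range, h.hc])
  rw [h5] at h3
  exact ⟨by omega, h5⟩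

/-- the factor of row one -/
noncomputable def Th1 (B : Finset ℕ) (k L b p : ℕ) : ℝ :=
  Th ((B.erase (k + 1 + L)).erase (k + b)) k (L + 1) p

/-- the factor of row two -/
noncomputable def Th2 (B : Finset ℕ) (k L b p : ℕ) : ℝ :=
  Th ((B.erase (k + 1 + L)).erase (k + b)) k b p

theorem Two.row1 {k L b s : ℕ} {B : Finset ℕ} (h : Two k L b s B) (p : ℕ) :
    Rr B (k + 1 + L) p = (1 + (p : ℝ) / ((L : ℝ) + 1 - b)) *
      (((L + 1).factorial : ℝ) / (L + 1 + p).factorial) * Th1 B k L b p :=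
  Rr_row1 h.hbL h.h2 p

theorem Two.row2 {k L b s : ℕ} {B : Finset ℕ} (h : Two k L b s B) (p : ℕ) :
    Rr B (k + b) p = (1 - (p : ℝ) / ((L : ℝ) + 1 - b)) *
      ((b.factorial : ℝ) / (b + p).factorial) * Th2 B k L b p := by
  have h1 := Rr_row2 h.hbL h.h1 p
  rwa [erase_right_comm] at h1

theorem Two.Th1_pos {k L b s : ℕ} {B : Finset ℕ} (h : Two k L b s B) (p : ℕ) :
    0 < Th1 B k L b p :=
  Th_pos (fun y hy => by have := h.hlt y hy; have := h.hbL; omega) p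

theorem Two.Th2_pos {k L b s : ℕ} {B : Finset ℕ} (h : Two k L b s B) (p : ℕ) :
    0 < Th2 B k L b p := Th_pos h.hlt p

theorem Two.Th1_zero {k L b s : ℕ} {B : Finset ℕ} (h : Two k L b s B) : Th1 B k L b 0 = 1 :=
  Th_zero (fun y hy => by have := h.hlt y hy; have := h.hbL; omega)

theorem Two.Th2_zero {k L b s : ℕ} {B : Finset ℕ} (h : Two k L b s B) : Th2 B k L b 0 = 1 :=
  Th_zero h.hlt

/-- row one, at least the vacuum -/
theorem Two.one_le_Th1 {k L b s : ℕ} {B : Finset ℕ} (h : Two k L b s B) (p : ℕ) :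
    1 ≤ Th1 B k L b p := by
  rcases Nat.eq_zero_or_pos b with rfl | hb
  · obtain ⟨-, h2⟩ := h.zero
    unfold Th1
    rw [h2, Th_vac]
  · exact Th_one_le h.hc h.hs h.hlt hb (by have := h.hbL; omega) p

theorem Two.one_le_Th2 {k L b s : ℕ} {B : Finset ℕ} (h : Two k L b s B) (p : ℕ) :
    1 ≤ Th2 B k L b p := by
  rcases Nat.eq_zero_or_pos b with rfl | hb
  · obtain ⟨-, h2⟩ := h.zero
    unfold Th2
    rw [h2, Th_vac]
  · exact Th_one_le h.hc h.hs h.hlt hb le_rfl p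

/-- row one, one third row -/
theorem Two.Th1_le_row {k L b s : ℕ} {B : Finset ℕ} (h : Two k L b s B) (hs : s ≤ L + 1) (p : ℕ) :
    Th1 B k L b p ≤ (1 + (p : ℝ) / ((L : ℝ) + 2 - s)) / (1 + (p : ℝ) / ((L : ℝ) + 2)) := by
  have h1 := Th_le_row (A := L + 1) h.hc h.hs (fun y hy => by
    have := h.hlt y hy
    have := h.hbL
    omega) hs p
  push_cast at h1
  rw [show (L : ℝ) + 1 + 1 - s = L + 2 - s by ring, show (L : ℝ) + 1 + 1 = L + 2 by ring] at h1
  exact h1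

/-- row two, one third row -/
theorem Two.Th2_le_row {k L b s : ℕ} {B : Finset ℕ} (h : Two k L b s B) (hs : s ≤ b) (p : ℕ) :
    Th2 B k L b p ≤ (1 + (p : ℝ) / ((b : ℝ) + 1 - s)) / (1 + (p : ℝ) / ((b : ℝ) + 1)) :=
  Th_le_row h.hc h.hs h.hlt hs p

/-- row one, Chebyshev step -/
theorem Two.Th1_step_le {k L b s : ℕ} {B : Finset ℕ} (h : Two k L b s B) (hb : 1 ≤ b) (p : ℕ) :
    Th1 B k L b (p + 1) ≤ Th1 B k L b p * ((1 + ((s : ℝ) / b) / ((L : ℝ) + 1 - b + p + 1)) /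
      (1 + ((s : ℝ) / b) / ((L : ℝ) + p + 2))) := by
  have h1 := Th_step_le h.hc h.hs h.hlt hb (A := L + 1) (by have := h.hbL; omega) p
  push_cast at h1
  rw [show (L : ℝ) + 1 + p + 1 = L + p + 2 by ring] at h1
  exact h1

/-- row one, step by one third row -/
theorem Two.Th1_step_row {k L b s : ℕ} {B : Finset ℕ} (h : Two k L b s B) (p : ℕ)
    (hs : s ≤ L + 1 + p) :
    Th1 B k L b (p + 1) ≤ Th1 B k L b p * ((1 + 1 / ((L : ℝ) + p + 2 - s)) /
      (1 + 1 / ((L : ℝ) + p + 2))) := by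
  have h1 := Th_step_row (A := L + 1) h.hc h.hs (fun y hy => by
    have := h.hlt y hy
    have := h.hbL
    omega) p hs
  push_cast at h1
  rw [show (L : ℝ) + 1 + p + 1 = L + p + 2 by ring] at h1
  exact h1

/-- row one, step from below -/
theorem Two.Th1_step_ge {k L b s : ℕ} {B : Finset ℕ} (h : Two k L b s B) (hb : 1 ≤ b) (p : ℕ) :
    Th1 B k L b p * (1 + (s : ℝ) / (((L : ℝ) + 1 + p) * (L + 2 + p + s))) ≤
      Th1 B k L b (p + 1) := by
  have h1 := Th_step_ge h.hc h.hs h.hlt hb (A := L + 1) (by have := h.hbL; omega) p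
  push_cast at h1
  rw [show (L : ℝ) + 1 + p + s + 1 = L + 2 + p + s by ring] at h1
  exact h1

/-- row two, Chebyshev step -/
theorem Two.Th2_step_le {k L b s : ℕ} {B : Finset ℕ} (h : Two k L b s B) (hb : 1 ≤ b) (p : ℕ) :
    Th2 B k L b (p + 1) ≤ Th2 B k L b p * ((1 + ((s : ℝ) / b) / ((p : ℝ) + 1)) /
      (1 + ((s : ℝ) / b) / ((b : ℝ) + p + 1))) := by
  have h1 := Th_step_le h.hc h.hs h.hlt hb (A := b) le_rfl p
  rw [show (b : ℝ) - b + p + 1 = p + 1 by ring] at h1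
  exact h1

/-- row two, step by one third row -/
theorem Two.Th2_step_row {k L b s : ℕ} {B : Finset ℕ} (h : Two k L b s B) (p : ℕ)
    (hs : s ≤ b + p) :
    Th2 B k L b (p + 1) ≤ Th2 B k L b p * ((1 + 1 / ((b : ℝ) + p + 1 - s)) /
      (1 + 1 / ((b : ℝ) + p + 1))) := Th_step_row h.hc h.hs h.hlt p hs

/-- row two, step from below -/
theorem Two.Th2_step_ge {k L b s : ℕ} {B : Finset ℕ} (h : Two k L b s B) (hb : 1 ≤ b) (p : ℕ) :
    Th2 B k L b p * (1 + (s : ℝ) / (((b : ℝ) + p) * (b + p + s + 1))) ≤ Th2 B k L b (p + 1) :=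
  Th_step_ge h.hc h.hs h.hlt hb le_rfl p

end Pool.JM
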