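import Pool.Agent.Work.MP_46fa68_27.Lists
import Pool.Agent.Work.MP_46fa68_27.Bridge

/-!
# MP_46fa68_co, range (P), `m = 24 .. 27` (`t = m - 1`): the three lists of the triple (helper36)

Denominator `1000`.  `a = 256 + ..`, `c = 401 + ..` (wall `t + 1`, lifts `t - 1`), `b = 128 + ..` (wall `t`, lifts `t`).
-/

set_option autoImplicit false

open Finset

namespace Pool.EGP

open Pool.OB Pool.NV Pool.JM Pool.JM.Rare

/-- `a` -/
def cfA : Cf := ⟨[([], []), ([-306, -306], [306, 612]), ([2], [297]), ([553], [55])], [597]⟩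

/-- `c` -/
def cfK : Cf := ⟨[([], []), ([-489, -489], [489, 978]), ([87], [399]), ([1004], [-17])], [996]⟩

/-- `b` -/
def cfB : Cf := ⟨[([403], [-403, 0, 403]), ([-182], [-196]), ([-514], [-313])], [-1204]⟩

theorem A_zero (m p : ℕ) : vC cfA m 1000 0 p = 0 := by
  unfold vC cfA
  simp [pev]

theorem K_zero (m p : ℕ) : vC cfK m 1000 0 p = 0 := by
  unfold vC cfK
  simp [pev]

theorem A_ex {t : ℕ} (ht : 2 ≤ t) : ∑ p ∈ range 2, vC cfA t 1000 1 p * r1 (t + 1) p = 0 := by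
  have h0 : (2 : ℝ) ≤ t := by exact_mod_cast ht
  have hf : ((t + 1).factorial : ℝ) ≠ 0 := by exact_mod_cast Nat.factorial_ne_zero _
  have e : ((t + 1 + 1).factorial : ℝ) = ((t : ℝ) + 2) * (t + 1).factorial := by
    rw [Nat.factorial_succ]
    push_cast
    ring
  have e1 : ((t + 1 - 1 : ℕ) : ℝ) = (t : ℝ) := by
    rw [Nat.add_sub_cancel]
  have h2 : (t : ℝ) + 2 ≠ 0 := by positivity
  have h3 : (t : ℝ) ≠ 0 := by positivity
  unfold r1
  rw [sum_range_succ, sum_range_one, e, e1, Nat.add_zero]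
  unfold vC cfA
  simp [pev]
  field_simp
  ring

theorem K_ex {t : ℕ} (ht : 2 ≤ t) : ∑ p ∈ range 2, vC cfK t 1000 1 p * r1 (t + 1) p = 0 := by
  have h0 : (2 : ℝ) ≤ t := by exact_mod_cast ht
  have hf : ((t + 1).factorial : ℝ) ≠ 0 := by exact_mod_cast Nat.factorial_ne_zero _
  have e : ((t + 1 + 1).factorial : ℝ) = ((t : ℝ) + 2) * (t + 1).factorial := by
    rw [Nat.factorial_succ]
    push_cast
    ring
  have e1 : ((t + 1 - 1 : ℕ) : ℝ) = (t : ℝ) := by
    rw [Nat.add_sub_cancel]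
  have h2 : (t : ℝ) + 2 ≠ 0 := by positivity
  have h3 : (t : ℝ) ≠ 0 := by positivity
  unfold r1
  rw [sum_range_succ, sum_range_one, e, e1, Nat.add_zero]
  unfold vC cfK
  simp [pev]
  field_simp
  ring

theorem B_ex {t : ℕ} (ht : 2 ≤ t) : ∑ p ∈ range 2, vC cfB t 1000 0 p * r1 t p = 0 := by
  have h0 : (2 : ℝ) ≤ t := by exact_mod_cast ht
  have hf : (t.factorial : ℝ) ≠ 0 := by exact_mod_cast Nat.factorial_ne_zero _
  have e : ((t + 1).factorial : ℝ) = ((t : ℝ) + 1) * t.factorial := by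
    rw [Nat.factorial_succ]
    push_cast
    ring
  have e1 : ((t - 1 : ℕ) : ℝ) = (t : ℝ) - 1 := by
    rw [Nat.cast_sub (by omega)]
    push_cast
    ring
  have h1 : (t : ℝ) - 1 ≠ 0 := by
    intro h
    linarith
  have h2 : (t : ℝ) + 1 ≠ 0 := by positivity
  have h3 : (t : ℝ) ≠ 0 := by positivity
  unfold r1
  rw [sum_range_succ, sum_range_one, e, e1, Nat.add_zero]
  unfold vC cfB
  simp [pev]
  field_simp
  ring

theorem A_sv {t : ℕ} (ht : 1 ≤ t) :
    sv (t + 1) 2 (vC cfA t 1000 2) = 2 / 1000 + 297 / 1000 * (t / (t + 2)) := by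
  have h0 : (0 : ℝ) < t := by exact_mod_cast ht
  have hf : ((t + 1).factorial : ℝ) ≠ 0 := by exact_mod_cast Nat.factorial_ne_zero _
  have e : ((t + 1 + 1).factorial : ℝ) = ((t : ℝ) + 2) * (t + 1).factorial := by
    rw [Nat.factorial_succ]
    push_cast
    ring
  unfold sv
  rw [sum_range_succ, sum_range_one, e, Nat.add_zero]
  unfold vC cfA
  simp [pev]
  field_simp

theorem K_sv {t : ℕ} (ht : 1 ≤ t) :
    sv (t + 1) 2 (vC cfK t 1000 2) = 87 / 1000 + 399 / 1000 * (t / (t + 2)) := by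
  have h0 : (0 : ℝ) < t := by exact_mod_cast ht
  have hf : ((t + 1).factorial : ℝ) ≠ 0 := by exact_mod_cast Nat.factorial_ne_zero _
  have e : ((t + 1 + 1).factorial : ℝ) = ((t : ℝ) + 2) * (t + 1).factorial := by
    rw [Nat.factorial_succ]
    push_cast
    ring
  unfold sv
  rw [sum_range_succ, sum_range_one, e, Nat.add_zero]
  unfold vC cfK
  simp [pev]
  field_simp

theorem B_sv {t : ℕ} (ht : 1 ≤ t) :
    sv t 2 (vC cfB t 1000 1) = -(182 / 1000 + 196 / 1000 * (t / (t + 1))) := by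
  have h0 : (0 : ℝ) < t := by exact_mod_cast ht
  have hf : (t.factorial : ℝ) ≠ 0 := by exact_mod_cast Nat.factorial_ne_zero _
  have e : ((t + 1).factorial : ℝ) = ((t : ℝ) + 1) * t.factorial := by
    rw [Nat.factorial_succ]
    push_cast
    ring
  unfold sv
  rw [sum_range_succ, sum_range_one, e, Nat.add_zero]
  unfold vC cfB
  simp [pev]
  field_simp
  ring

/-- the fixed list of rare layer pairs -/
def J24 : List (ℤ × ℤ) :=
  [(1, 2), (0, 1), (0, 2), (0, 3), (-1, 2), (-1, 3), (-1, 4), (-2, 3), (-2, 4), (-2, 5),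
    (-3, 4), (-3, 5), (-3, 6), (-4, 5), (-4, 6), (-4, 7), (-5, 6), (-5, 7), (-5, 8),
    (-6, 7), (-6, 8), (-6, 9)]

/-- the same as rows at the base `23` -/
def R24 : Finset (ℕ × ℕ) :=
  {(22, 22), (23, 23), (23, 22), (23, 21), (24, 22), (24, 21), (24, 20), (25, 21), (25, 20), (25, 19),
    (26, 20), (26, 19), (26, 18), (27, 19), (27, 18), (27, 17), (28, 18), (28, 17), (28, 16),
    (29, 17), (29, 16), (29, 15)}

theorem J24_bd : ∀ j ∈ J24, j.1 ≤ ((23 : ℕ) : ℤ) ∧ j.2 ≤ ((23 : ℕ) : ℤ) + 1 := by decide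

theorem rowsOf24 : rowsOf 23 J24 = R24 := by decide

theorem adm24 : Adm 23 R24 := by decide

theorem cost24 : ∑ l ∈ R24, cst 23 l.1 l.2 0 ≤ 1 / 5000 := by
  unfold R24
  repeat rw [Finset.sum_insert (by decide)]
  rw [Finset.sum_singleton]
  unfold cst
  norm_num [Nat.factorial]

end Pool.EGP
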