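import Pool.Agent.Work.MP_46fa68_36.EndP
import Pool.Agent.Work.MP_46fa68_36.ListsP
import Pool.Agent.Work.MP_46fa68_27.LargeU

/-!
# MP_46fa68_co, range (P): `Holds (2 t + 1) t` for `t = 23 .. 26` from the one-bead inequalities (helper36)

`MainP t`, `CrudeP t` (the triple) and helper27's `CrossU t` are instances of helper23's checker.
-/

set_option autoImplicit false

open Finset Equiv

namespace Pool.EGP

open Pool.JM Pool.JM.Rare Pool.OS Pool.OB Pool.TW Pool.TW.H27 Pool.TW.H82 Pool.EG Pool.NV Pool.EGL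

/-- off the rare layer pairs: `0 ≤ a`, `0 ≤ c`, `b ^ 2 ≤ a c` -/
def MainP (t : ℕ) : Prop :=
  ∀ (k L b s : ℕ) (B : Finset ℕ), Two k L b s B → L + b + s = 2 * t →
    ((t : ℤ) - L, (t : ℤ) + 1 - b) ∉ J24 →
    0 ≤ 256 / 1000 + HI (k + 2) t (t - 1) 4 (vC cfA t 1000) (tauC cfA t 1000) B ∧
      0 ≤ 401 / 1000 + HI (k + 2) t (t - 1) 4 (vC cfK t 1000) (tauC cfK t 1000) B ∧
      (128 / 1000 + HI (k + 2) t t 3 (vC cfB t 1000) (tauC cfB t 1000) B) ^ 2 ≤
        (256 / 1000 + HI (k + 2) t (t - 1) 4 (vC cfA t 1000) (tauC cfA t 1000) B) *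
          (401 / 1000 + HI (k + 2) t (t - 1) 4 (vC cfK t 1000) (tauC cfK t 1000) B)

/-- crude bounds on the rare layer pairs (true everywhere) -/
def CrudeP (t : ℕ) : Prop :=
  ∀ (k L b s : ℕ) (B : Finset ℕ), Two k L b s B → L + b + s = 2 * t →
    ((t : ℤ) - L, (t : ℤ) + 1 - b) ∈ J24 →
    |256 / 1000 + HI (k + 2) t (t - 1) 4 (vC cfA t 1000) (tauC cfA t 1000) B| ≤ 2 ∧
      |128 / 1000 + HI (k + 2) t t 3 (vC cfB t 1000) (tauC cfB t 1000) B| ≤ 2 ∧
      |401 / 1000 + HI (k + 2) t (t - 1) 4 (vC cfK t 1000) (tauC cfK t 1000) B| ≤ 2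

theorem certP {t : ℕ} (ht : 23 ≤ t) (H1 : MainP t) (H2 : CrossU t) (H3 : CrudeP t) : CertP t := by
  obtain ⟨i, hi⟩ : ∃ i, t = 23 + i := ⟨t - 23, by omega⟩
  have htR : (23 : ℝ) ≤ t := by exact_mod_cast ht
  have key : ∀ K, 2 ≤ K → ∀ B ∈ Lv K (2 * t), ∃ (k L b s : ℕ), K = k + 2 ∧ Two k L b s B ∧
      L + b + s = 2 * t := by
    intro K hK B hB
    obtain ⟨k, rfl⟩ : ∃ k, K = k + 2 := ⟨K - 2, by omega⟩
    obtain ⟨L, b, s, h1, h2⟩ := exists_two hB
    exact ⟨k, L, b, s, rfl, h2, h1.symm⟩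
  have eA : ∀ (K : ℕ) (B : Finset ℕ),
      HI K (t + 1) (t - 1) 3 (fun q p => vC cfA t 1000 (q + 1) p) (tauC cfA t 1000) B =
        HI K t (t - 1) 4 (vC cfA t 1000) (tauC cfA t 1000) B := fun K B =>
    (HI_drop (A_zero t) _ B).symm
  have eK : ∀ (K : ℕ) (B : Finset ℕ),
      HI K (t + 1) (t - 1) 3 (fun q p => vC cfK t 1000 (q + 1) p) (tauC cfK t 1000) B =
        HI K t (t - 1) 4 (vC cfK t 1000) (tauC cfK t 1000) B := fun K B =>
    (HI_drop (K_zero t) _ B).symm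
  have eV : ∀ (K : ℕ) (B : Finset ℕ),
      HI K (t - 1) (t + 1) 3 (shl (vC cfV t 100)) (tauC cfV t 100) B =
        HI K t (t + 1) 2 (vC cfV t 100) (tauC cfV t 100) B := fun K B => by
    rw [HI_shl, Nat.sub_add_cancel (by omega)]
  have hc : ∑ l ∈ R24, (2 : ℝ) * cst 23 l.1 l.2 0 ≤ 1 / 2500 := by
    rw [← mul_sum]
    have := cost24
    linarith
  have hc' : ∑ l ∈ R24, (7 / 2 : ℝ) * cst 23 l.1 l.2 0 ≤ 7 / 10000 := by
    rw [← mul_sum]
    have := cost24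
    linarith
  refine cert_of_abc (μ := 23) (i := i) (p1 := 2) (Qa := 3) (Qb := 3) (Qc := 3) (Qv := 3) hi (by omega)
    (by norm_num) (by norm_num) (by norm_num) (by norm_num)
    (fun q p => vC cfA t 1000 (q + 1) p) (vC cfB t 1000) (fun q p => vC cfK t 1000 (q + 1) p)
    (shl (vC cfV t 100)) (tauC cfA t 1000) (tauC cfB t 1000) (tauC cfK t 1000) (tauC cfV t 100)
    (256 / 1000) (128 / 1000) (401 / 1000) (7 / 2) (1 / 2500) (1 / 50000) (1 / 2500) (1 / 100000)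
    (9999 / 10000) (S11 t) (S12 t) (S22 t)
    (by norm_num) (fun q p hp => vC_two hp) (fun q p hp => vC_two hp) (fun q p hp => vC_two hp)
    ?_ ?_ ?_ ?_ ?_ ?_ ?_ ?_ (by norm_num) ?_
    adm24 (fun _ => 2) (fun _ => 2) (fun _ => 2) (fun _ => 7 / 2)
    (fun _ _ => by norm_num) (fun _ _ => by norm_num) (fun _ _ => by norm_num)
    (fun _ _ => by norm_num) (K₁ := 2) ?_ ?_ hc ?_ hc ?_
  · intro q p hp
    cases q with
    | zero => rfl
    | succ q => exact vC_two hp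
  · exact A_ex (by omega)
  · exact B_ex (by omega)
  · exact K_ex (by omega)
  · exact sum_eq_zero fun p _ => by
      change (0 : ℝ) * _ = 0
      rw [zero_mul]
  · have h := A_sv (t := t) (by omega)
    change S11 t ≤ -sv (t + 1) 2 (vC cfA t 1000 2) - 1 / 2500
    rw [h]
    unfold S11
    linarith
  · rw [B_sv (by omega)]
    unfold S12
    linarith
  · have h := K_sv (t := t) (by omega)
    change S22 t ≤ -sv (t + 1) 2 (vC cfK t 1000 2) - 1 / 2500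
    rw [h]
    unfold S22
    linarith
  · have h := V_sv (t := t) (by omega)
    change 9999 / 10000 < sv (t - 1) 2 (vC cfV t 100 0) - 1 / 100000
    rw [h]
    norm_num
  · intro K hK B hB hR
    obtain ⟨k, L, b, s, rfl, h2, h3⟩ := key K hK B hB
    rw [eA, eK, eV]
    obtain ⟨h4, h5, h6⟩ := H1 k L b s B h2 h3 fun hJ => hR (by
      rw [← rowsOf24]
      exact (rar_layer hi J24_bd h2).2 hJ)
    exact ⟨h4, h5, h6, H2 k L b s B h2 h3⟩
  · intro K hK l hl B hB hC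
    obtain ⟨k, L, b, s, rfl, h2, h3⟩ := key K hK B hB
    rw [eA, eK, eV]
    have hR : Rar R24 i (k + 2) B := ⟨l, hl, hC⟩
    rw [← rowsOf24] at hR
    obtain ⟨h4, h5, h6⟩ := H3 k L b s B h2 h3 ((rar_layer hi J24_bd h2).1 hR)
    exact ⟨h4, h5, h6, H2 k L b s B h2 h3⟩
  · linarith
  · nlinarith

/-- **the range (P)** -/
theorem holds_p {t : ℕ} (h1 : 23 ≤ t) (h2 : t ≤ 26) (H1 : MainP t) (H2 : CrossU t) (H3 : CrudeP t)
    (hK : ∀ n' t' : ℕ, 2 * t' + 3 ≤ n' → Holds n' t') : Holds (2 * t + 1) t :=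
  holdsP h1 h2 (certP h1 H1 H2 H3) (link_all t (by omega)) hK

end Pool.EGP
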