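import Pool.Agent.Work.MP_46fa68_23.Mo4

/-!
# MP_46fa68_co, S4: row one to order zero in the rows `≥ 3`

For `s ≤ L + 1`: `1 ≤ Th1 d ≤ 1 + d s / ((L+2-s) (L+2+d))`, hence with `y = 1 / (L + 1 - b)` the value of row one is
`m0 + y m1` up to `η ((1+y) B1 + y B2)`, `η ≥ s / ((L+2-s) (L+2))`.
-/

set_option autoImplicit false

open Finset

namespace Pool.NW

open Pool.NV Pool.OB Pool.JM

/-- row one, one third row, additive form -/
theorem Th1_sub_one_le {k L b s : ℕ} {B : Finset ℕ} (h : Two k L b s B) (hs : s ≤ L + 1) {η : ℝ}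
    (hη : s / (((L : ℝ) + 2 - s) * (L + 2)) ≤ η) (d : ℕ) : Th1 B k L b d - 1 ≤ d * η := by
  have h1 := h.Th1_le_row hs d
  have hsR : (s : ℝ) ≤ (L : ℝ) + 1 := by exact_mod_cast hs
  have hs0 : (0 : ℝ) ≤ s := Nat.cast_nonneg s
  have hd0 : (0 : ℝ) ≤ d := Nat.cast_nonneg d
  have hL0 : (0 : ℝ) ≤ L := Nat.cast_nonneg L
  have p1 : (0 : ℝ) < (L : ℝ) + 2 - s := by linarith
  have p2 : (0 : ℝ) < (L : ℝ) + 2 := by linarith
  have p3 : (0 : ℝ) < (L : ℝ) + 2 + d := by linarith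
  have e1 : (1 + (d : ℝ) / ((L : ℝ) + 2 - s)) / (1 + (d : ℝ) / ((L : ℝ) + 2)) - 1 =
      d * s / (((L : ℝ) + 2 - s) * (L + 2 + d)) := by
    have q1 : (1 + (d : ℝ) / ((L : ℝ) + 2)) ≠ 0 := by positivity
    rw [div_sub_one q1, div_eq_div_iff q1 (by positivity)]
    field_simp
    ring
  have e2 : (d : ℝ) * s / (((L : ℝ) + 2 - s) * (L + 2 + d)) ≤
      d * (s / (((L : ℝ) + 2 - s) * (L + 2))) := by
    rw [← mul_div_assoc]
    refine div_le_div_of_nonneg_left (by positivity) (by positivity) ?_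
    exact mul_le_mul_of_nonneg_left (by linarith) p1.le
  have e3 : (d : ℝ) * (s / (((L : ℝ) + 2 - s) * (L + 2))) ≤ d * η := mul_le_mul_of_nonneg_left hη hd0
  linarith

/-- **row one, third mode** -/
theorem row1_val1 {cf : Cf} {m t den k L b s : ℕ} {u : ℤ} {B : Finset ℕ} (hm : 0 < m)
    (ht : (t : ℤ) + u = m) (ht1 : 1 ≤ t) (hden : 0 < den) (hu : u ≤ 29)
    (h : Two k L b s B) (hs : s ≤ L + 1) (hR : Rng u (1 / m) ((m : ℤ) - L)) {η β y : ℝ}
    (hy : y = 1 / ((L : ℝ) + 1 - b)) (hη : s / (((L : ℝ) + 2 - s) * (L + 2)) ≤ η)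
    (hβ : 1 ≤ β) (hβ2 : β ≤ 5 / 4) :
    |HIx (k + 2) m t cf.v.length (vC cf m den) (tauC cf m den) B (k + 1 + L) * den -
      (mW cf u (1 / m) ((m : ℤ) - L) w0 + y * mW cf u (1 / m) ((m : ℤ) - L) w1)| ≤
      η * ((1 + y) * mB cf u (1 / m) ((m : ℤ) - L) β w1 +
        y * mB cf u (1 / m) ((m : ℤ) - L) β w2) := by
  have hD := two_D h
  have hy0 : 0 ≤ y := by
    rw [hy]
    exact div_nonneg zero_le_one (by linarith)
  have hg : ∀ d : ℕ, |gs B k L b d - (1 + d * y + d * (d - 1) * 0)| ≤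
      ((η * (1 + y)) * w1 d + (η * y) * w2 d + 0 * w3 d) * β ^ d := by
    intro d
    have h1 := Th1_sub_one_le h hs hη d
    have h2 := h.one_le_Th1 d
    have hd0 : (0 : ℝ) ≤ d := Nat.cast_nonneg d
    have hdy : 0 ≤ (d : ℝ) * y := mul_nonneg hd0 hy0
    have e1 : gs B k L b d - (1 + d * y + d * (d - 1) * 0) = (1 + d * y) * (Th1 B k L b d - 1) := by
      unfold gs
      rw [hy]
      ring
    have e2 : ((η * (1 + y)) * w1 d + (η * y) * w2 d + 0 * w3 d : ℝ) = (1 + d * y) * (d * η) := by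
      rw [w2_cast]
      unfold w1
      ring
    rw [e1, e2, abs_of_nonneg (mul_nonneg (by linarith) (by linarith))]
    have h3 : (1 + (d : ℝ) * y) * (Th1 B k L b d - 1) ≤ (1 + d * y) * (d * η) :=
      mul_le_mul_of_nonneg_left h1 (by linarith)
    have h4 : 0 ≤ (1 + (d : ℝ) * y) * (d * η) :=
      (mul_nonneg (by linarith) (by linarith)).trans h3
    have h5 : (1 : ℝ) ≤ β ^ d := one_le_pow₀ hβ
    calc (1 + (d : ℝ) * y) * (Th1 B k L b d - 1) ≤ (1 + d * y) * (d * η) * 1 := by linarith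
      _ ≤ (1 + d * y) * (d * η) * β ^ d := mul_le_mul_of_nonneg_left h5 h4
  have key := row_lin (cf := cf) hR hu (by linarith) hβ2 hg
  rw [HIx_row1 hm ht ht1 hden h]
  refine le_trans (le_of_eq ?_) (key.trans (le_of_eq ?_))
  · congr 1
    ring
  · ring

end Pool.NW
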