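import Pool.Agent.Work.MP_46fa68_36.LargeA
import Pool.Agent.Work.MP_46fa68_63.LinkEG

/-!
# MP_46fa68_co: `Holds 45 22` (`m = 23`) from the one-bead statements of set A (helper36)
-/

set_option autoImplicit false

open Finset Equiv

namespace Pool.EGA

open Pool.JM Pool.JM.Rare Pool.OS Pool.OB Pool.TW Pool.TW.H27 Pool.TW.H82 Pool.EG Pool.NV Pool.NW Pool.EGL
open Pool.EGP (J24)

theorem cfA_eq : cfA = lA 68 478 (-316) 987 (-642) 391 := rfl
theorem cfK_eq : cfK = lA 820 (-879) 1536 (-17) 1344 1240 := rfl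
theorem cfB_eq : cfB = lB 370 (-120) (-222) (-443) (-309) (-1096) := rfl
theorem cfV_eq : cfV = lV 2600 (-1600) 3050 (-1170) 1940 := rfl

theorem J24_22 : ∀ j ∈ J24, j.1 ≤ ((22 : ℕ) : ℤ) ∧ j.2 ≤ ((22 : ℕ) : ℤ) + 1 := by decide

theorem rows22 : rowsOf 22 J24 =
    {(21, 21), (22, 22), (22, 21), (22, 20), (23, 21), (23, 20), (23, 19), (24, 20), (24, 19), (24, 18),
      (25, 19), (25, 18), (25, 17), (26, 18), (26, 17), (26, 16), (27, 17), (27, 16), (27, 15),
      (28, 16), (28, 15), (28, 14)} := by decide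

theorem adm22 : Adm 22 (rowsOf 22 J24) := by
  rw [rows22]
  decide

theorem cost22 : ∑ l ∈ rowsOf 22 J24, cst 22 l.1 l.2 0 ≤ 7 / 10000 := by
  rw [rows22]
  repeat rw [Finset.sum_insert (by decide)]
  rw [Finset.sum_singleton]
  unfold cst
  norm_num [Nat.factorial]

/-- **the gap at `t = 22`** -/
theorem gap22 (H1 : MainG FA FK FB J24 22) (H2 : CrossG FV J24 22 2500) (H3 : CrudeG FA FK FB J24 22)
    (H4 : CrudeV FV J24 22) :
    EG.Gap (2 * 22 + 1) 22 1 (166 / 100 / ((22 : ℕ) + 1)) (1 - 172 / 100 / ((22 : ℕ) + 1)) := by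
  have C := certG (t := 22) (ga := 68) (xa0 := 478) (xa1 := -316) (ya0 := 987) (ya1 := -642) (τa := 391)
    (ca := 225) (gk := 820) (xk0 := -879) (xk1 := 1536) (yk0 := -17) (yk1 := 1344) (τk := 1240)
    (ck := 431) (gb := 370) (xb0 := -120) (xb1 := -222) (yb0 := -443) (yb1 := -309) (τb := -1096)
    (cb := 116) (xv0 := 2600) (xv1 := -1600) (yv0 := 3050) (yv1 := -1170) (τv := 1940)
    (κ := 7 / 10000) (η := 14 / 10000) (by norm_num) J24_22 adm22 cost22 (by norm_num) (by norm_num)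
    H1 H2 H3 H4 (by norm_num) le_rfl le_rfl le_rfl
  have hf : (1000 : ℝ) ≤ ((22 + 1).factorial : ℝ) := by
    have : (7).factorial ≤ (22 + 1).factorial := Nat.factorial_le (by norm_num)
    have h7 : (7).factorial = 5040 := by decide
    rw [h7] at this
    have h8 : (5040 : ℝ) ≤ ((22 + 1).factorial : ℝ) := by exact_mod_cast this
    linarith
  have g1 : EG.Gap (2 * 22 + 1) 22 1 (166 / 100 / ((22 : ℕ) + 1)) (49 / 100) := by
    refine gap_of_abc (by norm_num) C (by norm_num) (by norm_num) (by norm_num) (by norm_num)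
      (l := 1) one_pos (by norm_num) (by norm_num) ?_ (by norm_num) ?_ ?_
    · nlinarith
    · norm_num [psi]
    · norm_num [psi]
  have g2 : EG.Gap (2 * 22 + 1) 22 1 (48 / 100) (1 - 172 / 100 / ((22 : ℕ) + 1)) := by
    refine gap_of_abc (by norm_num) C (by norm_num) (by norm_num) (by norm_num) (by norm_num)
      (l := 68 / 1000) (by norm_num) (by norm_num) (by norm_num) ?_ (by norm_num) ?_ ?_
    · nlinarith
    · norm_num [psi]
    · norm_num [psi]
  exact EG.gap_union g1 g2 (by norm_num)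

theorem front22 : FrontD 22 (166 / 100) (172 / 100) := by constructor <;> norm_num

/-- **`m = 23`** -/
theorem holdsA_22 (H1 : MainG FA FK FB J24 22) (H2 : CrossG FV J24 22 2500)
    (H3 : CrudeG FA FK FB J24 22) (H4 : CrudeV FV J24 22)
    (hK : ∀ n' t' : ℕ, 2 * t' + 3 ≤ n' → Holds n' t') : Holds (2 * 22 + 1) 22 :=
  holds_frontD front22 (gap22 H1 H2 H3 H4) (link_all 22 (by norm_num)) hK

end Pool.EGA
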