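import Pool.Agent.Work.MP_46fa68_82.AnGapP
import Pool.Agent.Work.MP_46fa68_86.Unif3

/-!
# MP_46fa68_co, range (P): the numerical end for `m = 24, 25, 26, 27` (`t = m - 1`)

The triple (divided by `m - 1`, resp. multiplied): constants `256, 128, 401` over `1000`, jumps
`2 + 297 t/(t+2)`, `182 + 196 t/(t+1)`, `87 + 399 t/(t+2)` over `1000`.
Two scalings `l = 1` and `l = 3/50` cover the densities from `(151/100)/m` to `1 - (89/50)/m`.
-/

set_option autoImplicit false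

open Finset Equiv

namespace Pool.EGP

open Pool.JM Pool.OB Pool.TW Pool.TW.H27 Pool.TW.H82

/-- jump of `a` -/
noncomputable def S11 (t : ℕ) : ℝ := -(2 / 1000 + 297 / 1000 * (t / (t + 2))) - 1 / 2500
/-- jump of `b` -/
noncomputable def S12 (t : ℕ) : ℝ := 182 / 1000 + 196 / 1000 * (t / (t + 1)) - 1 / 50000
/-- jump of `c` -/
noncomputable def S22 (t : ℕ) : ℝ := -(87 / 1000 + 399 / 1000 * (t / (t + 2))) - 1 / 2500

/-- the certificate of the triple -/
def CertP (t : ℕ) : Prop :=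
  (∀ δ : ℝ, 0 < δ →
      PCert (2 * t - 1) t (256 / 1000) (S11 t) (128 / 1000) (S12 t) (401 / 1000) (S22 t) δ) ∧
    CB (2 * t) (t + 1)
      ((7 / 2 / (9999 / 10000)) ^ 2 / ((t : ℝ) * (t + 1)) ^ 2 * ((t + 1).factorial : ℝ) ^ 2)

/-- **the gap of the triple**, `23 ≤ t ≤ 26` -/
theorem gapP {t : ℕ} (h1 : 23 ≤ t) (h2 : t ≤ 26) (H1 : CertP t) :
    EG.Gap (2 * t + 1) t 1 (151 / 100 / (t + 1)) (1 - 89 / 50 / (t + 1)) := by
  have hf : (1000 : ℝ) ≤ ((t + 1).factorial : ℝ) := by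
    have : (7).factorial ≤ (t + 1).factorial := Nat.factorial_le (by omega)
    have h7 : (7).factorial = 5040 := by decide
    rw [h7] at this
    have h8 : (5040 : ℝ) ≤ ((t + 1).factorial : ℝ) := by exact_mod_cast this
    linarith
  have key : ∀ {l β p : ℝ}, 0 < l → 0 ≤ β → p ≤ 1 → 1 / 100 ≤ p - β →
      0 < -(l * S11 t) + 2 * (S12 t * (t + 1) / t) - l⁻¹ * S22 t / t ^ 2 →
      psi t (256 / 1000) (S11 t) (128 / 1000) (S12 t) (401 / 1000) (S22 t)
        (t * ((7 / 2 / (9999 / 10000)) ^ 2 / ((t : ℝ) * (t + 1)) ^ 2)) l β ≤ 0 →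
      psi t (256 / 1000) (S11 t) (128 / 1000) (S12 t) (401 / 1000) (S22 t)
        (t * ((7 / 2 / (9999 / 10000)) ^ 2 / ((t : ℝ) * (t + 1)) ^ 2)) l p ≤ 0 →
      EG.Gap (2 * t + 1) t 1 β p := by
    intro l β p hl hβ hp hd hconv a1 a2
    refine gap_of_abc (by omega) H1 (by norm_num) (by norm_num) ?_ ?_ hl hβ hp ?_ hconv a1 a2
    · unfold S12
      have : (0 : ℝ) ≤ (t : ℝ) / (t + 1) := by positivity
      linarith
    · unfold S22
      have : (0 : ℝ) ≤ (t : ℝ) / (t + 2) := by positivity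
      linarith
    · nlinarith
  have g1 : EG.Gap (2 * t + 1) t 1 (151 / 100 / (t + 1)) (9 / 20) := by
    refine key (l := 1) one_pos ?_ ?_ ?_ ?_ ?_ ?_
    all_goals
      clear H1 hf key
      interval_cases t <;> norm_num [psi, S11, S12, S22]
  have g2 : EG.Gap (2 * t + 1) t 1 (43 / 100) (1 - 89 / 50 / (t + 1)) := by
    refine key (l := 3 / 50) (by norm_num) ?_ ?_ ?_ ?_ ?_ ?_
    all_goals
      clear H1 hf key
      interval_cases t <;> norm_num [psi, S11, S12, S22]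
  exact EG.gap_union g1 g2 (by norm_num)

theorem constsP {t : ℕ} (h1 : 23 ≤ t) (h2 : t ≤ 26) : EG.ConstsT t (151 / 100) (89 / 50) := by
  interval_cases t <;> refine ⟨by norm_num, by norm_num, by norm_num, ?_, ?_, ?_, ?_, ?_, ?_, ?_⟩ <;> norm_num

/-- **`Holds` for one `t`**, `23 ≤ t ≤ 26` -/
theorem holdsP {t : ℕ} (h1 : 23 ≤ t) (h2 : t ≤ 26) (H1 : CertP t)
    (hLink : EG.Link t) (hK : ∀ n' t' : ℕ, 2 * t' + 3 ≤ n' → EG.Holds n' t') :
    EG.Holds (2 * t + 1) t :=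
  EG.holds_constsT (constsP h1 h2) (gapP h1 h2 H1) hLink hK

end Pool.EGP
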