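import Pool.Agent.Work.MP_46fa68_36.EndA
import Pool.Agent.Work.MP_46fa68_18.PA22
import Pool.Agent.Work.MP_46fa68_18.PA22C
import Pool.Agent.Work.MP_46fa68_18.PV22

/-!
# MP_46fa68_co: `Holds 45 22` (`m = 23`) (helper36; kernel runs helper18)
-/

set_option autoImplicit false

namespace Pool.EGA

open Pool.EG

theorem holds_22 (hK : ∀ n' t' : ℕ, 2 * t' + 3 ≤ n' → Holds n' t') : Holds (2 * 22 + 1) 22 :=
  holdsA_22 (fun _ _ _ _ _ h hN hJ => Pool.NW.PA22.main h hN hJ)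
    (fun _ _ _ _ _ h hN hJ => Pool.NW.PV22.cross h hN hJ)
    (fun _ _ _ _ _ h hN _ => Pool.NW.PA22C.crude h hN)
    (fun _ _ _ _ _ h hN _ => Pool.NW.PV22.crude h hN) hK

end Pool.EGA
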