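import Pool.Agent.Work.MP_46fa68_36.ListsA
import Pool.Agent.Work.MP_46fa68_36.ListsP
import Pool.Agent.Work.MP_46fa68_82.AnGapP
import Pool.Agent.Work.MP_46fa68_74.DS12
import Pool.Agent.Work.MP_46fa68_18.MoP3

/-!
# MP_46fa68_co: `Holds (2 t + 1) t` for one `t` from the triple set A (helper36)

The four one-bead statements `MainA`, `CrudeA`, `CrossA`, `CrudeV` are instances of helper18's point checker.
-/

set_option autoImplicit false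

open Finset Equiv

namespace Pool.EGA

open Pool.JM Pool.JM.Rare Pool.OS Pool.OB Pool.TW Pool.TW.H27 Pool.TW.H82 Pool.EG Pool.NV Pool.NW Pool.EGL
open Pool.EGP (J24)

/-! ### exactness, general lists -/

def lA (g x0 x1 y0 y1 τ : ℤ) : Cf := ⟨[([], []), ([-g, -g], [g, 2 * g]), ([x0], [x1]), ([y0], [y1])], [τ]⟩

def lB (g x0 x1 y0 y1 τ : ℤ) : Cf := ⟨[([g], [-g, 0, g]), ([x0], [x1]), ([y0], [y1])], [τ]⟩

def lV (x0 x1 y0 y1 τ : ℤ) : Cf := ⟨[([x0], [x1]), ([y0], [y1])], [τ]⟩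

theorem lA_zero (g x0 x1 y0 y1 τ : ℤ) (m p : ℕ) : vC (lA g x0 x1 y0 y1 τ) m 1000 0 p = 0 := by
  unfold vC lA
  simp [pev]

theorem lA_ex (g x0 x1 y0 y1 τ : ℤ) {t : ℕ} (ht : 2 ≤ t) :
    ∑ p ∈ range 2, vC (lA g x0 x1 y0 y1 τ) t 1000 1 p * r1 (t + 1) p = 0 := by
  have h0 : (2 : ℝ) ≤ t := by exact_mod_cast ht
  have hf : ((t + 1).factorial : ℝ) ≠ 0 := by exact_mod_cast Nat.factorial_ne_zero _
  have e : ((t + 1 + 1).factorial : ℝ) = ((t : ℝ) + 2) * (t + 1).factorial := by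
    rw [Nat.factorial_succ]
    push_cast
    ring
  have e1 : ((t + 1 - 1 : ℕ) : ℝ) = (t : ℝ) := by
    rw [Nat.add_sub_cancel]
  have h2 : (t : ℝ) + 2 ≠ 0 := by positivity
  have h3 : (t : ℝ) ≠ 0 := by positivity
  unfold r1
  rw [sum_range_succ, sum_range_one, e, e1, Nat.add_zero]
  unfold vC lA
  simp [pev]
  field_simp
  ring

theorem lB_ex (g x0 x1 y0 y1 τ : ℤ) {t : ℕ} (ht : 2 ≤ t) :
    ∑ p ∈ range 2, vC (lB g x0 x1 y0 y1 τ) t 1000 0 p * r1 t p = 0 := by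
  have h0 : (2 : ℝ) ≤ t := by exact_mod_cast ht
  have hf : (t.factorial : ℝ) ≠ 0 := by exact_mod_cast Nat.factorial_ne_zero _
  have e : ((t + 1).factorial : ℝ) = ((t : ℝ) + 1) * t.factorial := by
    rw [Nat.factorial_succ]
    push_cast
    ring
  have e1 : ((t - 1 : ℕ) : ℝ) = (t : ℝ) - 1 := by
    rw [Nat.cast_sub (by omega)]
    push_cast
    ring
  have h1 : (t : ℝ) - 1 ≠ 0 := by
    intro h
    linarith
  have h2 : (t : ℝ) + 1 ≠ 0 := by positivity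
  have h3 : (t : ℝ) ≠ 0 := by positivity
  unfold r1
  rw [sum_range_succ, sum_range_one, e, e1, Nat.add_zero]
  unfold vC lB
  simp [pev]
  field_simp
  ring

theorem lA_sv (g x0 x1 y0 y1 τ : ℤ) {t : ℕ} (ht : 1 ≤ t) :
    sv (t + 1) 2 (vC (lA g x0 x1 y0 y1 τ) t 1000 2) =
      (x0 : ℝ) / 1000 + (x1 : ℝ) / 1000 * (t / (t + 2)) := by
  have h0 : (0 : ℝ) < t := by exact_mod_cast ht
  have hf : ((t + 1).factorial : ℝ) ≠ 0 := by exact_mod_cast Nat.factorial_ne_zero _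
  have e : ((t + 1 + 1).factorial : ℝ) = ((t : ℝ) + 2) * (t + 1).factorial := by
    rw [Nat.factorial_succ]
    push_cast
    ring
  unfold sv
  rw [sum_range_succ, sum_range_one, e, Nat.add_zero]
  unfold vC lA
  simp [pev]
  field_simp

theorem lB_sv (g x0 x1 y0 y1 τ : ℤ) {t : ℕ} (ht : 1 ≤ t) :
    sv t 2 (vC (lB g x0 x1 y0 y1 τ) t 1000 1) =
      (x0 : ℝ) / 1000 + (x1 : ℝ) / 1000 * (t / (t + 1)) := by
  have h0 : (0 : ℝ) < t := by exact_mod_cast ht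
  have hf : (t.factorial : ℝ) ≠ 0 := by exact_mod_cast Nat.factorial_ne_zero _
  have e : ((t + 1).factorial : ℝ) = ((t : ℝ) + 1) * t.factorial := by
    rw [Nat.factorial_succ]
    push_cast
    ring
  unfold sv
  rw [sum_range_succ, sum_range_one, e, Nat.add_zero]
  unfold vC lB
  simp [pev]
  field_simp

theorem lV_sv (x0 x1 y0 y1 τ : ℤ) {t : ℕ} (ht : 1 ≤ t) :
    sv (t - 1) 2 (vC (lV x0 x1 y0 y1 τ) t 1000 0) = (x0 : ℝ) / 1000 + (x1 : ℝ) / 1000 := by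
  obtain ⟨u, rfl⟩ : ∃ u, t = u + 1 := ⟨t - 1, by omega⟩
  have hf : (u.factorial : ℝ) ≠ 0 := by exact_mod_cast Nat.factorial_ne_zero _
  have e : ((u + 1).factorial : ℝ) = ((u : ℝ) + 1) * u.factorial := by
    rw [Nat.factorial_succ]
    push_cast
    ring
  have h2 : (u : ℝ) + 1 ≠ 0 := by positivity
  unfold sv
  rw [Nat.add_sub_cancel, sum_range_succ, sum_range_one, e, Nat.add_zero]
  unfold vC lV
  simp [pev]
  field_simp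

/-! ### the one-bead statements -/

/-- off the rare layer pairs -/
def MainG (Fa Fk Fb : FD) (J : List (ℤ × ℤ)) (t : ℕ) : Prop :=
  ∀ (k L b s : ℕ) (B : Finset ℕ), Two k L b s B → L + b + s = 2 * t →
    ((t : ℤ) - L, (t : ℤ) + 1 - b) ∉ J → Cone Fa Fk Fb t (t - 1) (t - 1) t 1000 (k + 2) B

/-- on the rare layer pairs -/
def CrudeG (Fa Fk Fb : FD) (J : List (ℤ × ℤ)) (t : ℕ) : Prop :=
  ∀ (k L b s : ℕ) (B : Finset ℕ), Two k L b s B → L + b + s = 2 * t →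
    ((t : ℤ) - L, (t : ℤ) + 1 - b) ∈ J →
    |fD Fa t (t - 1) 1000 (k + 2) B| ≤ 2000 ∧ |fD Fk t (t - 1) 1000 (k + 2) B| ≤ 2000 ∧
      |fD Fb t t 1000 (k + 2) B| ≤ 2000

/-- the cross function, off the rare layer pairs -/
def CrossG (Fv : FD) (J : List (ℤ × ℤ)) (t c : ℕ) : Prop :=
  ∀ (k L b s : ℕ) (B : Finset ℕ), Two k L b s B → L + b + s = 2 * t →
    ((t : ℤ) - L, (t : ℤ) + 1 - b) ∉ J → |fD Fv t (t + 1) 1000 (k + 2) B| ≤ c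

/-- the cross function, on the rare layer pairs -/
def CrudeV (Fv : FD) (J : List (ℤ × ℤ)) (t : ℕ) : Prop :=
  ∀ (k L b s : ℕ) (B : Finset ℕ), Two k L b s B → L + b + s = 2 * t →
    ((t : ℤ) - L, (t : ℤ) + 1 - b) ∈ J → |fD Fv t (t + 1) 1000 (k + 2) B| ≤ 10000

/-- the rows of the rare layer pairs -/
def RJ (J : List (ℤ × ℤ)) (t : ℕ) : Finset (ℕ × ℕ) := rowsOf t J

variable {t : ℕ}

/-- **the certificate of a triple** -/
theorem certG {ga xa0 xa1 ya0 ya1 τa ca gk xk0 xk1 yk0 yk1 τk ck gb xb0 xb1 yb0 yb1 τb cb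
    xv0 xv1 yv0 yv1 τv : ℤ} (ht : 20 ≤ t) {J : List (ℤ × ℤ)}
    (hJ : ∀ j ∈ J, j.1 ≤ (t : ℤ) ∧ j.2 ≤ (t : ℤ) + 1) (hA : Adm t (rowsOf t J)) {κ η s11 s12 s22 : ℝ}
    (hκ : ∑ l ∈ rowsOf t J, cst t l.1 l.2 0 ≤ κ) (h1 : 2 * κ ≤ η) (hη : η ≤ 1 / 500)
    (H1 : MainG ⟨lA ga xa0 xa1 ya0 ya1 τa, 1, [ca]⟩ ⟨lA gk xk0 xk1 yk0 yk1 τk, 1, [ck]⟩
      ⟨lB gb xb0 xb1 yb0 yb1 τb, 0, [cb]⟩ J t)
    (H2 : CrossG ⟨lV xv0 xv1 yv0 yv1 τv, -1, []⟩ J t 2500)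
    (H3 : CrudeG ⟨lA ga xa0 xa1 ya0 ya1 τa, 1, [ca]⟩ ⟨lA gk xk0 xk1 yk0 yk1 τk, 1, [ck]⟩
      ⟨lB gb xb0 xb1 yb0 yb1 τb, 0, [cb]⟩ J t)
    (H4 : CrudeV ⟨lV xv0 xv1 yv0 yv1 τv, -1, []⟩ J t)
    (hv : xv0 + xv1 = 1000)
    (e11 : s11 ≤ -((xa0 : ℝ) / 1000 + (xa1 : ℝ) / 1000 * (t / (t + 2))) - η)
    (e12 : s12 ≤ -((xb0 : ℝ) / 1000 + (xb1 : ℝ) / 1000 * (t / (t + 1))) - η / 20)
    (e22 : s22 ≤ -((xk0 : ℝ) / 1000 + (xk1 : ℝ) / 1000 * (t / (t + 2))) - η) :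
    (∀ δ : ℝ, 0 < δ →
      PCert (2 * t - 1) t ((ca : ℝ) / 1000) s11 ((cb : ℝ) / 1000) s12 ((ck : ℝ) / 1000) s22 δ) ∧
    CB (2 * t) (t + 1)
      ((5 / 2 / (9999 / 10000)) ^ 2 / ((t : ℝ) * (t + 1)) ^ 2 * ((t + 1).factorial : ℝ) ^ 2) := by
  have htR : (20 : ℝ) ≤ t := by exact_mod_cast ht
  have hi : t = t + 0 := rfl
  have key : ∀ K, 2 ≤ K → ∀ B ∈ Lv K (2 * t), ∃ (k L b s : ℕ), K = k + 2 ∧ Two k L b s B ∧
      L + b + s = 2 * t := by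
    intro K hK B hB
    obtain ⟨k, rfl⟩ : ∃ k, K = k + 2 := ⟨K - 2, by omega⟩
    obtain ⟨L, b, s, h1, h2⟩ := exists_two hB
    exact ⟨k, L, b, s, rfl, h2, h1.symm⟩
  have hκ0 : 0 ≤ ∑ l ∈ rowsOf t J, cst t l.1 l.2 0 := sum_nonneg fun l _ => cst_nonneg _ _ _ _
  have eA : ∀ (g x0 x1 y0 y1 τ : ℤ) (K : ℕ) (B : Finset ℕ),
      HI K (t + 1) (t - 1) 3 (fun q p => vC (lA g x0 x1 y0 y1 τ) t 1000 (q + 1) p)
        (tauC (lA g x0 x1 y0 y1 τ) t 1000) B =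
        HI K t (t - 1) 4 (vC (lA g x0 x1 y0 y1 τ) t 1000) (tauC (lA g x0 x1 y0 y1 τ) t 1000) B :=
    fun g x0 x1 y0 y1 τ K B => (HI_drop (lA_zero g x0 x1 y0 y1 τ t) _ B).symm
  have eV : ∀ (K : ℕ) (B : Finset ℕ),
      HI K (t - 1) (t + 1) 3 (shl (vC (lV xv0 xv1 yv0 yv1 τv) t 1000)) (tauC (lV xv0 xv1 yv0 yv1 τv) t 1000) B =
        HI K t (t + 1) 2 (vC (lV xv0 xv1 yv0 yv1 τv) t 1000) (tauC (lV xv0 xv1 yv0 yv1 τv) t 1000) B :=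
    fun K B => by
      rw [HI_shl, Nat.sub_add_cancel (by omega)]
  have fA : ∀ (g x0 x1 y0 y1 τ c : ℤ) (K : ℕ) (B : Finset ℕ),
      fD ⟨lA g x0 x1 y0 y1 τ, 1, [c]⟩ t (t - 1) 1000 K B = ((c : ℝ) / 1000 +
        HI K t (t - 1) 4 (vC (lA g x0 x1 y0 y1 τ) t 1000) (tauC (lA g x0 x1 y0 y1 τ) t 1000) B) * 1000 := by
    intro g x0 x1 y0 y1 τ c K B
    unfold fD
    have : pev [c] (1 / (t : ℝ)) = c := by simp [pev]
    rw [this]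
    simp [lA]
    ring
  have fB : ∀ (K : ℕ) (B : Finset ℕ),
      fD ⟨lB gb xb0 xb1 yb0 yb1 τb, 0, [cb]⟩ t t 1000 K B = ((cb : ℝ) / 1000 +
        HI K t t 3 (vC (lB gb xb0 xb1 yb0 yb1 τb) t 1000) (tauC (lB gb xb0 xb1 yb0 yb1 τb) t 1000) B) *
          1000 := by
    intro K B
    unfold fD
    have : pev [cb] (1 / (t : ℝ)) = cb := by simp [pev]
    rw [this]
    simp [lB]
    ring
  have fV : ∀ (K : ℕ) (B : Finset ℕ),
      fD ⟨lV xv0 xv1 yv0 yv1 τv, -1, []⟩ t (t + 1) 1000 K B =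
        HI K t (t + 1) 2 (vC (lV xv0 xv1 yv0 yv1 τv) t 1000) (tauC (lV xv0 xv1 yv0 yv1 τv) t 1000) B *
          1000 := by
    intro K B
    unfold fD
    simp [lV, pev]
  have hc2 : ∑ l ∈ rowsOf t J, (2 : ℝ) * cst t l.1 l.2 0 ≤ η := by
    rw [← mul_sum]
    linarith
  have hcb : ∑ l ∈ rowsOf t J, (2 : ℝ) * cst t l.1 l.2 0 ≤ ((t : ℝ) + 1) * (η / 20) := by
    refine hc2.trans ?_
    nlinarith
  have hcv : ∑ l ∈ rowsOf t J, (10 : ℝ) * cst t l.1 l.2 0 ≤ (t : ℝ) * (t + 1) * (1 / 20000) := by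
    rw [← mul_sum]
    nlinarith
  refine cert_of_abc (μ := t) (i := 0) (p1 := 2) (Qa := 3) (Qb := 3) (Qc := 3) (Qv := 3) hi (by omega)
    (by norm_num) (by norm_num) (by norm_num) (by norm_num)
    (fun q p => vC (lA ga xa0 xa1 ya0 ya1 τa) t 1000 (q + 1) p) (vC (lB gb xb0 xb1 yb0 yb1 τb) t 1000)
    (fun q p => vC (lA gk xk0 xk1 yk0 yk1 τk) t 1000 (q + 1) p)
    (shl (vC (lV xv0 xv1 yv0 yv1 τv) t 1000)) (tauC (lA ga xa0 xa1 ya0 ya1 τa) t 1000)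
    (tauC (lB gb xb0 xb1 yb0 yb1 τb) t 1000) (tauC (lA gk xk0 xk1 yk0 yk1 τk) t 1000)
    (tauC (lV xv0 xv1 yv0 yv1 τv) t 1000)
    ((ca : ℝ) / 1000) ((cb : ℝ) / 1000) ((ck : ℝ) / 1000) (5 / 2) η (η / 20) η (1 / 20000)
    (9999 / 10000) s11 s12 s22
    (by norm_num) (fun q p hp => vC_two hp) (fun q p hp => vC_two hp) (fun q p hp => vC_two hp)
    ?_ ?_ ?_ ?_ ?_ ?_ ?_ ?_ (by norm_num) ?_
    hA (fun _ => 2) (fun _ => 2) (fun _ => 2) (fun _ => 10)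
    (fun _ _ => by norm_num) (fun _ _ => by norm_num) (fun _ _ => by norm_num)
    (fun _ _ => by norm_num) (K₁ := 2) ?_ ?_ hc2 hcb hc2 hcv
  · intro q p hp
    cases q with
    | zero => rfl
    | succ q => exact vC_two hp
  · exact lA_ex _ _ _ _ _ _ (by omega)
  · exact lB_ex _ _ _ _ _ _ (by omega)
  · exact lA_ex _ _ _ _ _ _ (by omega)
  · exact sum_eq_zero fun p _ => by
      change (0 : ℝ) * _ = 0
      rw [zero_mul]
  · have h := lA_sv ga xa0 xa1 ya0 ya1 τa (t := t) (by omega)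
    change s11 ≤ -sv (t + 1) 2 (vC (lA ga xa0 xa1 ya0 ya1 τa) t 1000 2) - η
    rw [h]
    exact e11
  · rw [lB_sv _ _ _ _ _ _ (by omega)]
    exact e12
  · have h := lA_sv gk xk0 xk1 yk0 yk1 τk (t := t) (by omega)
    change s22 ≤ -sv (t + 1) 2 (vC (lA gk xk0 xk1 yk0 yk1 τk) t 1000 2) - η
    rw [h]
    exact e22
  · have h := lV_sv xv0 xv1 yv0 yv1 τv (t := t) (by omega)
    change 9999 / 10000 < sv (t - 1) 2 (vC (lV xv0 xv1 yv0 yv1 τv) t 1000 0) - 1 / 20000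
    rw [h]
    have : (xv0 : ℝ) + xv1 = 1000 := by exact_mod_cast hv
    have h' : (xv0 : ℝ) / 1000 + xv1 / 1000 = 1 := by linarith
    rw [h']
    norm_num
  · intro K hK B hB hR
    obtain ⟨k, L, b, s, rfl, h2, h3⟩ := key K hK B hB
    rw [eA, eA, eV]
    have hJ' : ((t : ℤ) - L, (t : ℤ) + 1 - b) ∉ J := fun h => hR ((rar_layer hi hJ h2).2 h)
    obtain ⟨c1, c2, c3⟩ := H1 k L b s B h2 h3 hJ'
    have c4 := H2 k L b s B h2 h3 hJ'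
    rw [fA] at c1
    rw [fA] at c2
    rw [fA, fA, fB] at c3
    rw [fV, abs_mul, abs_of_pos (by norm_num : (0 : ℝ) < 1000)] at c4
    push_cast at c4
    refine ⟨by linarith, by linarith, by nlinarith, by linarith⟩
  · intro K hK l hl B hB hC
    obtain ⟨k, L, b, s, rfl, h2, h3⟩ := key K hK B hB
    rw [eA, eA, eV]
    have hR : Rar (rowsOf t J) 0 (k + 2) B := ⟨l, hl, hC⟩
    have hJ' : ((t : ℤ) - L, (t : ℤ) + 1 - b) ∈ J := (rar_layer hi hJ h2).1 hR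
    obtain ⟨c1, c2, c3⟩ := H3 k L b s B h2 h3 hJ'
    have c4 := H4 k L b s B h2 h3 hJ'
    rw [fA, abs_mul, abs_of_pos (by norm_num : (0 : ℝ) < 1000)] at c1
    rw [fA, abs_mul, abs_of_pos (by norm_num : (0 : ℝ) < 1000)] at c2
    rw [fB, abs_mul, abs_of_pos (by norm_num : (0 : ℝ) < 1000)] at c3
    rw [fV, abs_mul, abs_of_pos (by norm_num : (0 : ℝ) < 1000)] at c4
    refine ⟨by linarith, by linarith, by linarith, by linarith⟩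

end Pool.EGA
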