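import Pool.Agent.Work.MP_46fa68_23.Mo6

/-!
# MP_46fa68_co, `m = 22`: the lists of set C (helper36).  Denominator `1000`; definitions only.
-/

set_option autoImplicit false

namespace Pool.EGC

open Pool.NV Pool.NW

/-- `a`, wall `t + 1`, lifts `t - 1` -/
def cfA : Cf := ⟨[([], []), ([-222, -222], [222, 444]), ([49], [175]), ([417], [25])], [435]⟩

/-- `c`, wall `t + 1`, lifts `t - 1` -/
def cfK : Cf := ⟨[([], []), ([-446, -446], [446, 892]), ([93], [341]), ([802], [42])], [847]⟩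

/-- `b`, wall `t`, lifts `t` -/
def cfB : Cf := ⟨[([405], [-405, 0, 405]), ([-184], [-171]), ([-535], [-205])], [-1024]⟩

def FA : FD := ⟨cfA, 1, [244]⟩
def FK : FD := ⟨cfK, 1, [423]⟩
def FB : FD := ⟨cfB, 0, [116]⟩

end Pool.EGC
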