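import Pool.Agent.Work.MP_46fa68_36.LargeA
import Pool.Agent.Work.MP_46fa68_36.ListsC
import Pool.Agent.Work.MP_46fa68_27.LargeU
import Pool.Agent.Work.MP_46fa68_63.LinkEG

/-!
# MP_46fa68_co: `Holds 43 21` (`m = 22`) from the triple C and the cross function of the uniform range (helper36)
-/

set_option autoImplicit false

open Finset Equiv

namespace Pool.EGC

open Pool.JM Pool.JM.Rare Pool.OS Pool.OB Pool.TW Pool.TW.H27 Pool.TW.H82 Pool.EG Pool.NV Pool.NW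
open Pool.EGL
open Pool.EGP (J24)
open Pool.EGA (lA lB lA_zero lA_ex lB_ex lA_sv lB_sv MainG CrudeG)

variable {t : ℕ}

/-- **the certificate of a triple** -/
theorem certU {ga xa0 xa1 ya0 ya1 τa ca gk xk0 xk1 yk0 yk1 τk ck gb xb0 xb1 yb0 yb1 τb cb : ℤ} (ht : 20 ≤ t) {J : List (ℤ × ℤ)}
    (hJ : ∀ j ∈ J, j.1 ≤ (t : ℤ) ∧ j.2 ≤ (t : ℤ) + 1) (hA : Adm t (rowsOf t J)) {κ η s11 s12 s22 : ℝ}
    (hκ : ∑ l ∈ rowsOf t J, cst t l.1 l.2 0 ≤ κ) (h1 : 2 * κ ≤ η) (hη : η ≤ 1 / 100)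
    (H1 : MainG ⟨lA ga xa0 xa1 ya0 ya1 τa, 1, [ca]⟩ ⟨lA gk xk0 xk1 yk0 yk1 τk, 1, [ck]⟩
      ⟨lB gb xb0 xb1 yb0 yb1 τb, 0, [cb]⟩ J t)
    (H2 : CrossU t)
    (H3 : CrudeG ⟨lA ga xa0 xa1 ya0 ya1 τa, 1, [ca]⟩ ⟨lA gk xk0 xk1 yk0 yk1 τk, 1, [ck]⟩
      ⟨lB gb xb0 xb1 yb0 yb1 τb, 0, [cb]⟩ J t)
    (e11 : s11 ≤ -((xa0 : ℝ) / 1000 + (xa1 : ℝ) / 1000 * (t / (t + 2))) - η)
    (e12 : s12 ≤ -((xb0 : ℝ) / 1000 + (xb1 : ℝ) / 1000 * (t / (t + 1))) - η / 20)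
    (e22 : s22 ≤ -((xk0 : ℝ) / 1000 + (xk1 : ℝ) / 1000 * (t / (t + 2))) - η) :
    (∀ δ : ℝ, 0 < δ →
      PCert (2 * t - 1) t ((ca : ℝ) / 1000) s11 ((cb : ℝ) / 1000) s12 ((ck : ℝ) / 1000) s22 δ) ∧
    CB (2 * t) (t + 1)
      ((7 / 2 / (9999 / 10000)) ^ 2 / ((t : ℝ) * (t + 1)) ^ 2 * ((t + 1).factorial : ℝ) ^ 2) := by
  have htR : (20 : ℝ) ≤ t := by exact_mod_cast ht
  have hi : t = t + 0 := rfl
  have key : ∀ K, 2 ≤ K → ∀ B ∈ Lv K (2 * t), ∃ (k L b s : ℕ), K = k + 2 ∧ Two k L b s B ∧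
      L + b + s = 2 * t := by
    intro K hK B hB
    obtain ⟨k, rfl⟩ : ∃ k, K = k + 2 := ⟨K - 2, by omega⟩
    obtain ⟨L, b, s, h1, h2⟩ := exists_two hB
    exact ⟨k, L, b, s, rfl, h2, h1.symm⟩
  have hκ0 : 0 ≤ ∑ l ∈ rowsOf t J, cst t l.1 l.2 0 := sum_nonneg fun l _ => cst_nonneg _ _ _ _
  have eA : ∀ (g x0 x1 y0 y1 τ : ℤ) (K : ℕ) (B : Finset ℕ),
      HI K (t + 1) (t - 1) 3 (fun q p => vC (lA g x0 x1 y0 y1 τ) t 1000 (q + 1) p)
        (tauC (lA g x0 x1 y0 y1 τ) t 1000) B =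
        HI K t (t - 1) 4 (vC (lA g x0 x1 y0 y1 τ) t 1000) (tauC (lA g x0 x1 y0 y1 τ) t 1000) B :=
    fun g x0 x1 y0 y1 τ K B => (HI_drop (lA_zero g x0 x1 y0 y1 τ t) _ B).symm
  have eV : ∀ (K : ℕ) (B : Finset ℕ),
      HI K (t - 1) (t + 1) 3 (shl (vC Pool.EGL.cfV t 100)) (tauC Pool.EGL.cfV t 100) B =
        HI K t (t + 1) 2 (vC Pool.EGL.cfV t 100) (tauC Pool.EGL.cfV t 100) B := fun K B => by
    rw [HI_shl, Nat.sub_add_cancel (by omega)]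
  have fA : ∀ (g x0 x1 y0 y1 τ c : ℤ) (K : ℕ) (B : Finset ℕ),
      fD ⟨lA g x0 x1 y0 y1 τ, 1, [c]⟩ t (t - 1) 1000 K B = ((c : ℝ) / 1000 +
        HI K t (t - 1) 4 (vC (lA g x0 x1 y0 y1 τ) t 1000) (tauC (lA g x0 x1 y0 y1 τ) t 1000) B) * 1000 := by
    intro g x0 x1 y0 y1 τ c K B
    unfold fD
    have : pev [c] (1 / (t : ℝ)) = c := by simp [pev]
    rw [this]
    simp [lA]
    ring
  have fB : ∀ (K : ℕ) (B : Finset ℕ),
      fD ⟨lB gb xb0 xb1 yb0 yb1 τb, 0, [cb]⟩ t t 1000 K B = ((cb : ℝ) / 1000 +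
        HI K t t 3 (vC (lB gb xb0 xb1 yb0 yb1 τb) t 1000) (tauC (lB gb xb0 xb1 yb0 yb1 τb) t 1000) B) *
          1000 := by
    intro K B
    unfold fD
    have : pev [cb] (1 / (t : ℝ)) = cb := by simp [pev]
    rw [this]
    simp [lB]
    ring
  have hc2 : ∑ l ∈ rowsOf t J, (2 : ℝ) * cst t l.1 l.2 0 ≤ η := by
    rw [← mul_sum]
    linarith
  have hcb : ∑ l ∈ rowsOf t J, (2 : ℝ) * cst t l.1 l.2 0 ≤ ((t : ℝ) + 1) * (η / 20) := by
    refine hc2.trans ?_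
    nlinarith
  have hcv : ∑ l ∈ rowsOf t J, (7 / 2 : ℝ) * cst t l.1 l.2 0 ≤ (t : ℝ) * (t + 1) * (1 / 20000) := by
    rw [← mul_sum]
    nlinarith
  refine cert_of_abc (μ := t) (i := 0) (p1 := 2) (Qa := 3) (Qb := 3) (Qc := 3) (Qv := 3) hi (by omega)
    (by norm_num) (by norm_num) (by norm_num) (by norm_num)
    (fun q p => vC (lA ga xa0 xa1 ya0 ya1 τa) t 1000 (q + 1) p) (vC (lB gb xb0 xb1 yb0 yb1 τb) t 1000)
    (fun q p => vC (lA gk xk0 xk1 yk0 yk1 τk) t 1000 (q + 1) p)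
    (shl (vC Pool.EGL.cfV t 100)) (tauC (lA ga xa0 xa1 ya0 ya1 τa) t 1000)
    (tauC (lB gb xb0 xb1 yb0 yb1 τb) t 1000) (tauC (lA gk xk0 xk1 yk0 yk1 τk) t 1000)
    (tauC Pool.EGL.cfV t 100)
    ((ca : ℝ) / 1000) ((cb : ℝ) / 1000) ((ck : ℝ) / 1000) (7 / 2) η (η / 20) η (1 / 20000)
    (9999 / 10000) s11 s12 s22
    (by norm_num) (fun q p hp => vC_two hp) (fun q p hp => vC_two hp) (fun q p hp => vC_two hp)
    ?_ ?_ ?_ ?_ ?_ ?_ ?_ ?_ (by norm_num) ?_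
    hA (fun _ => 2) (fun _ => 2) (fun _ => 2) (fun _ => 7 / 2)
    (fun _ _ => by norm_num) (fun _ _ => by norm_num) (fun _ _ => by norm_num)
    (fun _ _ => by norm_num) (K₁ := 2) ?_ ?_ hc2 hcb hc2 hcv
  · intro q p hp
    cases q with
    | zero => rfl
    | succ q => exact vC_two hp
  · exact lA_ex _ _ _ _ _ _ (by omega)
  · exact lB_ex _ _ _ _ _ _ (by omega)
  · exact lA_ex _ _ _ _ _ _ (by omega)
  · exact sum_eq_zero fun p _ => by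
      change (0 : ℝ) * _ = 0
      rw [zero_mul]
  · have h := lA_sv ga xa0 xa1 ya0 ya1 τa (t := t) (by omega)
    change s11 ≤ -sv (t + 1) 2 (vC (lA ga xa0 xa1 ya0 ya1 τa) t 1000 2) - η
    rw [h]
    exact e11
  · rw [lB_sv _ _ _ _ _ _ (by omega)]
    exact e12
  · have h := lA_sv gk xk0 xk1 yk0 yk1 τk (t := t) (by omega)
    change s22 ≤ -sv (t + 1) 2 (vC (lA gk xk0 xk1 yk0 yk1 τk) t 1000 2) - η
    rw [h]
    exact e22
  · have h := V_sv (t := t) (by omega)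
    change 9999 / 10000 < sv (t - 1) 2 (vC Pool.EGL.cfV t 100 0) - 1 / 20000
    rw [h]
    norm_num
  · intro K hK B hB hR
    obtain ⟨k, L, b, s, rfl, h2, h3⟩ := key K hK B hB
    rw [eA, eA, eV]
    have hJ' : ((t : ℤ) - L, (t : ℤ) + 1 - b) ∉ J := fun h => hR ((rar_layer hi hJ h2).2 h)
    obtain ⟨c1, c2, c3⟩ := H1 k L b s B h2 h3 hJ'
    have c4 := H2 k L b s B h2 h3
    rw [fA] at c1
    rw [fA] at c2
    rw [fA, fA, fB] at c3
    refine ⟨by linarith, by linarith, by nlinarith, c4⟩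
  · intro K hK l hl B hB hC
    obtain ⟨k, L, b, s, rfl, h2, h3⟩ := key K hK B hB
    rw [eA, eA, eV]
    have hR : Rar (rowsOf t J) 0 (k + 2) B := ⟨l, hl, hC⟩
    have hJ' : ((t : ℤ) - L, (t : ℤ) + 1 - b) ∈ J := (rar_layer hi hJ h2).1 hR
    obtain ⟨c1, c2, c3⟩ := H3 k L b s B h2 h3 hJ'
    have c4 := H2 k L b s B h2 h3
    rw [fA, abs_mul, abs_of_pos (by norm_num : (0 : ℝ) < 1000)] at c1
    rw [fA, abs_mul, abs_of_pos (by norm_num : (0 : ℝ) < 1000)] at c2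
    rw [fB, abs_mul, abs_of_pos (by norm_num : (0 : ℝ) < 1000)] at c3
    refine ⟨by linarith, by linarith, by linarith, c4⟩


theorem cfA_eq : cfA = lA 222 49 175 417 25 435 := rfl
theorem cfK_eq : cfK = lA 446 93 341 802 42 847 := rfl
theorem cfB_eq : cfB = lB 405 (-184) (-171) (-535) (-205) (-1024) := rfl

theorem J24_21 : ∀ j ∈ J24, j.1 ≤ ((21 : ℕ) : ℤ) ∧ j.2 ≤ ((21 : ℕ) : ℤ) + 1 := by decide

theorem rows21 : rowsOf 21 J24 =
    {(20, 20), (21, 21), (21, 20), (21, 19), (22, 20), (22, 19), (22, 18), (23, 19), (23, 18), (23, 17),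
      (24, 18), (24, 17), (24, 16), (25, 17), (25, 16), (25, 15), (26, 16), (26, 15), (26, 14),
      (27, 15), (27, 14), (27, 13)} := by decide

theorem adm21 : Adm 21 (rowsOf 21 J24) := by
  rw [rows21]
  decide

theorem cost21 : ∑ l ∈ rowsOf 21 J24, cst 21 l.1 l.2 0 ≤ 32 / 10000 := by
  rw [rows21]
  repeat rw [Finset.sum_insert (by decide)]
  rw [Finset.sum_singleton]
  unfold cst
  norm_num [Nat.factorial]

/-- **the gap at `t = 21`** -/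
theorem gap21 (H1 : MainG FA FK FB J24 21) (H2 : CrossU 21) (H3 : CrudeG FA FK FB J24 21) :
    EG.Gap (2 * 21 + 1) 21 1 (164 / 100 / ((21 : ℕ) + 1)) (1 - 176 / 100 / ((21 : ℕ) + 1)) := by
  have C := certU (t := 21) (ga := 222) (xa0 := 49) (xa1 := 175) (ya0 := 417) (ya1 := 25) (τa := 435)
    (ca := 244) (gk := 446) (xk0 := 93) (xk1 := 341) (yk0 := 802) (yk1 := 42) (τk := 847)
    (ck := 423) (gb := 405) (xb0 := -184) (xb1 := -171) (yb0 := -535) (yb1 := -205) (τb := -1024)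
    (cb := 116) (κ := 32 / 10000) (η := 64 / 10000) (by norm_num) J24_21 adm21 cost21 (by norm_num)
    (by norm_num) H1 H2 H3 le_rfl le_rfl le_rfl
  have hf : (1000 : ℝ) ≤ ((21 + 1).factorial : ℝ) := by
    have : (7).factorial ≤ (21 + 1).factorial := Nat.factorial_le (by norm_num)
    have h7 : (7).factorial = 5040 := by decide
    rw [h7] at this
    have h8 : (5040 : ℝ) ≤ ((21 + 1).factorial : ℝ) := by exact_mod_cast this
    linarith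
  have g1 : EG.Gap (2 * 21 + 1) 21 1 (164 / 100 / ((21 : ℕ) + 1)) (47 / 100) := by
    refine gap_of_abc (by norm_num) C (by norm_num) (by norm_num) (by norm_num) (by norm_num)
      (l := 1) one_pos (by norm_num) (by norm_num) ?_ (by norm_num) ?_ ?_
    · nlinarith
    · norm_num [psi]
    · norm_num [psi]
  have g2 : EG.Gap (2 * 21 + 1) 21 1 (46 / 100) (1 - 176 / 100 / ((21 : ℕ) + 1)) := by
    refine gap_of_abc (by norm_num) C (by norm_num) (by norm_num) (by norm_num) (by norm_num)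
      (l := 7 / 100) (by norm_num) (by norm_num) (by norm_num) ?_ (by norm_num) ?_ ?_
    · nlinarith
    · norm_num [psi]
    · norm_num [psi]
  exact EG.gap_union g1 g2 (by norm_num)

theorem front21 : FrontD 21 (164 / 100) (176 / 100) := by constructor <;> norm_num

/-- **`m = 22`** -/
theorem holdsC_21 (H1 : MainG FA FK FB J24 21) (H2 : CrossU 21) (H3 : CrudeG FA FK FB J24 21)
    (hK : ∀ n' t' : ℕ, 2 * t' + 3 ≤ n' → Holds n' t') : Holds (2 * 21 + 1) 21 :=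
  holds_frontD front21 (gap21 H1 H2 H3) (link_all 21 (by norm_num)) hK

end Pool.EGC
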