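import Pool.Agent.Work.MP_46fa68_23.Mo6

/-!
# MP_46fa68_co, `m = 22`: the lists of set D (helper36).  Denominator `1000`; definitions only.
-/

set_option autoImplicit false

namespace Pool.EGD

open Pool.NV Pool.NW

/-- `a`, wall `t + 1`, lifts `t - 1` -/
def cfA : Cf := ⟨[([], []), ([-165, -165], [165, 330]), ([197], [-1]), ([370], [19])], [376]⟩

/-- `c`, wall `t + 1`, lifts `t - 1` -/
def cfK : Cf := ⟨[([], []), ([-352, -352], [352, 704]), ([338], [31]), ([695], [51])], [759]⟩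

/-- `b`, wall `t`, lifts `t` -/
def cfB : Cf := ⟨[([363], [-363, 0, 363]), ([-330], [-17]), ([-729], [35])], [-954]⟩

def FA : FD := ⟨cfA, 1, [254]⟩
def FK : FD := ⟨cfK, 1, [434]⟩
def FB : FD := ⟨cfB, 0, [106]⟩

/-- the rare layer pairs -/
def JD : List (ℤ × ℤ) :=
  [(1, 2), (0, 1), (0, 2), (0, 3), (-1, 2), (-1, 4), (-2, 3), (-2, 4), (-3, 4)]

end Pool.EGD
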