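import Pool.Agent.Work.MP_46fa68_36.LargeC
import Pool.Agent.Work.MP_46fa68_36.ListsD

/-!
# MP_46fa68_co: `Holds 43 21` (`m = 22`) from the triple D and the cross function of the uniform range (helper36)
-/

set_option autoImplicit false

open Finset Equiv

namespace Pool.EGD

open Pool.JM Pool.JM.Rare Pool.OS Pool.OB Pool.TW Pool.TW.H27 Pool.TW.H82 Pool.EG Pool.NV Pool.NW
open Pool.EGL (CrossU)
open Pool.EGA (lA lB MainG CrudeG)

theorem cfA_eq : cfA = lA 165 197 (-1) 370 19 376 := rfl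
theorem cfK_eq : cfK = lA 352 338 31 695 51 759 := rfl
theorem cfB_eq : cfB = lB 363 (-330) (-17) (-729) 35 (-954) := rfl

theorem JD_21 : ∀ j ∈ JD, j.1 ≤ ((21 : ℕ) : ℤ) ∧ j.2 ≤ ((21 : ℕ) : ℤ) + 1 := by decide

theorem rowsD : rowsOf 21 JD =
    {(20, 20), (21, 21), (21, 20), (21, 19), (22, 20), (22, 18), (23, 19), (23, 18), (24, 18)} := by decide

theorem admD : Adm 21 (rowsOf 21 JD) := by
  rw [rowsD]
  decide

theorem costD : ∑ l ∈ rowsOf 21 JD, cst 21 l.1 l.2 0 ≤ 12 / 10000 := by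
  rw [rowsD]
  repeat rw [Finset.sum_insert (by decide)]
  rw [Finset.sum_singleton]
  unfold cst
  norm_num [Nat.factorial]

/-- **the gap at `t = 21`** -/
theorem gapD (H1 : MainG FA FK FB JD 21) (H2 : CrossU 21) (H3 : CrudeG FA FK FB JD 21) :
    EG.Gap (2 * 21 + 1) 21 1 (1648 / 1000 / ((21 : ℕ) + 1)) (1 - 1765 / 1000 / ((21 : ℕ) + 1)) := by
  have C := EGC.certU (t := 21) (ga := 165) (xa0 := 197) (xa1 := -1) (ya0 := 370) (ya1 := 19) (τa := 376)
    (ca := 254) (gk := 352) (xk0 := 338) (xk1 := 31) (yk0 := 695) (yk1 := 51) (τk := 759)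
    (ck := 434) (gb := 363) (xb0 := -330) (xb1 := -17) (yb0 := -729) (yb1 := 35) (τb := -954)
    (cb := 106) (κ := 12 / 10000) (η := 24 / 10000) (by norm_num) JD_21 admD costD (by norm_num)
    (by norm_num) H1 H2 H3 le_rfl le_rfl le_rfl
  have hf : (1000 : ℝ) ≤ ((21 + 1).factorial : ℝ) := by
    have : (7).factorial ≤ (21 + 1).factorial := Nat.factorial_le (by norm_num)
    have h7 : (7).factorial = 5040 := by decide
    rw [h7] at this
    have h8 : (5040 : ℝ) ≤ ((21 + 1).factorial : ℝ) := by exact_mod_cast this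
    linarith
  have g1 : EG.Gap (2 * 21 + 1) 21 1 (1648 / 1000 / ((21 : ℕ) + 1)) (476 / 1000) := by
    refine gap_of_abc (by norm_num) C (by norm_num) (by norm_num) (by norm_num) (by norm_num)
      (l := 98 / 100) (by norm_num) (by norm_num) (by norm_num) ?_ (by norm_num) ?_ ?_
    · nlinarith
    · norm_num [psi]
    · norm_num [psi]
  have g2 : EG.Gap (2 * 21 + 1) 21 1 (475 / 1000) (1 - 1765 / 1000 / ((21 : ℕ) + 1)) := by
    refine gap_of_abc (by norm_num) C (by norm_num) (by norm_num) (by norm_num) (by norm_num)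
      (l := 68 / 1000) (by norm_num) (by norm_num) (by norm_num) ?_ (by norm_num) ?_ ?_
    · nlinarith
    · norm_num [psi]
    · norm_num [psi]
  exact EG.gap_union g1 g2 (by norm_num)

theorem frontD : FrontD 21 (1648 / 1000) (1765 / 1000) := by constructor <;> norm_num

/-- **`m = 22`** -/
theorem holdsD_21 (H1 : MainG FA FK FB JD 21) (H2 : CrossU 21) (H3 : CrudeG FA FK FB JD 21)
    (hK : ∀ n' t' : ℕ, 2 * t' + 3 ≤ n' → Holds n' t') : Holds (2 * 21 + 1) 21 :=
  holds_frontD frontD (gapD H1 H2 H3) (link_all 21 (by norm_num)) hK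

end Pool.EGD
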