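import Pool.Agent.Work.MP_46fa68_23.Mo6

/-!
# MP_46fa68_co, `m = 22, 23`: the lists of set A (helper36).  Denominator `1000`; definitions only.
-/

set_option autoImplicit false

namespace Pool.EGA

open Pool.NV Pool.NW

/-- `a`, wall `t + 1`, lifts `t - 1` -/
def cfA : Cf := ⟨[([], []), ([-68, -68], [68, 136]), ([478], [-316]), ([987], [-642])], [391]⟩

/-- `c`, wall `t + 1`, lifts `t - 1` -/
def cfK : Cf := ⟨[([], []), ([-820, -820], [820, 1640]), ([-879], [1536]), ([-17], [1344])], [1240]⟩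

/-- `b`, wall `t`, lifts `t` -/
def cfB : Cf := ⟨[([370], [-370, 0, 370]), ([-120], [-222]), ([-443], [-309])], [-1096]⟩

/-- the cross function, wall `t - 1`, lifts `t + 1` -/
def cfV : Cf := ⟨[([2600], [-1600]), ([3050], [-1170])], [1940]⟩

def FA : FD := ⟨cfA, 1, [225]⟩
def FK : FD := ⟨cfK, 1, [431]⟩
def FB : FD := ⟨cfB, 0, [116]⟩
def FV : FD := ⟨cfV, -1, []⟩

end Pool.EGA
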